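import Pool.Agent.H72.DEF.Sec

/-!
The doubling lemma: a homomorphism `ψ : T → E` splits as a product of two commuting homomorphisms as soon as the
diagonal splits in a compatible way.
-/

set_option autoImplicit false

open scoped commutatorElement

namespace Pool.Agent.H72.DEF

/-- the doubling lemma. -/
theorem doubling {G T E : Type} [Group G] [Group T] [Group E] (hG : commutator G = ⊤)
    (hT : Sec T) (ψ : T →* E) (D : G →* T)
    (hD : Subgroup.normalClosure (Set.range D) = ⊤) (P Q : G →* E)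
    (hPQ : ∀ g, ψ (D g) = P g * Q g)
    (hc : ∀ g h t, Commute (P g) ((ψ t)⁻¹ * Q h * ψ t)) :
    ∃ σ σ' : T →* E, (∀ t t', Commute (σ t) (σ' t')) ∧ (∀ t, σ t * σ' t = ψ t) ∧
      (∀ g, σ (D g) = P g) ∧ (∀ g, σ' (D g) = Q g) := by
  -- the subgroup generated by the conjugates of `P`
  set X : Set E := {x | ∃ g t, x = (ψ t)⁻¹ * P g * ψ t} with hX
  set L : Subgroup E := Subgroup.closure X with hL
  set C : Subgroup E := Subgroup.centralizer (L : Set E) with hC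
  have hCmem : ∀ c, c ∈ C ↔ ∀ l ∈ L, l * c = c * l := fun c => Subgroup.mem_centralizer_iff
  have hXL : ∀ g t, (ψ t)⁻¹ * P g * ψ t ∈ L := fun g t => Subgroup.subset_closure ⟨g, t, rfl⟩
  have hPL : ∀ g, P g ∈ L := fun g => by simpa using hXL g 1
  -- `L` is normalised by the image of `ψ`
  have hLn : ∀ l ∈ L, ∀ t, (ψ t)⁻¹ * l * ψ t ∈ L := by
    intro l hl t
    induction hl using Subgroup.closure_induction with
    | mem x hx =>
      obtain ⟨g, s, rfl⟩ := hx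
      have e : (ψ t)⁻¹ * ((ψ s)⁻¹ * P g * ψ s) * ψ t = (ψ (s * t))⁻¹ * P g * ψ (s * t) := by
        rw [map_mul]
        group
      rw [e]
      exact hXL g _
    | one =>
      rw [mul_one, inv_mul_cancel]
      exact L.one_mem
    | mul x y _ _ hx hy =>
      have e : (ψ t)⁻¹ * (x * y) * ψ t = ((ψ t)⁻¹ * x * ψ t) * ((ψ t)⁻¹ * y * ψ t) := by group
      rw [e]
      exact L.mul_mem hx hy
    | inv x _ hx =>
      have e : (ψ t)⁻¹ * x⁻¹ * ψ t = ((ψ t)⁻¹ * x * ψ t)⁻¹ := by group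
      rw [e]
      exact L.inv_mem hx
  have hLn' : ∀ l ∈ L, ∀ t, ψ t * l * (ψ t)⁻¹ ∈ L := by
    intro l hl t
    have := hLn l hl t⁻¹
    rwa [map_inv, inv_inv] at this
  have hCn : ∀ c ∈ C, ∀ t, (ψ t)⁻¹ * c * ψ t ∈ C := by
    intro c hcc t
    rw [hCmem]
    intro l hl
    have h1 := (hCmem c).1 hcc _ (hLn' l hl t)
    have e1 : l * ((ψ t)⁻¹ * c * ψ t) = (ψ t)⁻¹ * ((ψ t * l * (ψ t)⁻¹) * c) * ψ t := by group
    have e2 : (ψ t)⁻¹ * c * ψ t * l = (ψ t)⁻¹ * (c * (ψ t * l * (ψ t)⁻¹)) * ψ t := by group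
    rw [e1, e2, h1]
  have hQC : ∀ h, Q h ∈ C := by
    intro h
    rw [hC, hL, Subgroup.centralizer_closure, Subgroup.mem_centralizer_iff]
    rintro x ⟨g, t, rfl⟩
    have h1 := hc g h t⁻¹
    rw [map_inv, inv_inv] at h1
    have h2 := h1.eq
    have e1 : (ψ t)⁻¹ * P g * ψ t * Q h = (ψ t)⁻¹ * (P g * (ψ t * Q h * (ψ t)⁻¹)) * ψ t := by
      group
    have e2 : Q h * ((ψ t)⁻¹ * P g * ψ t) = (ψ t)⁻¹ * ((ψ t * Q h * (ψ t)⁻¹) * P g) * ψ t := by
      group
    rw [e1, e2, h2]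
  -- the central extension
  set S : Subgroup (E × T) :=
    { carrier := {x | x.1 ∈ L ∧ x.1⁻¹ * ψ x.2 ∈ C}
      mul_mem' := by
        rintro ⟨l, u⟩ ⟨l', u'⟩ ⟨h1, h2⟩ ⟨h3, h4⟩
        refine ⟨L.mul_mem h1 h3, ?_⟩
        show (l * l')⁻¹ * ψ (u * u') ∈ C
        have h5 := (hCmem _).1 h2 _ (L.inv_mem h3)
        have e : (l * l')⁻¹ * ψ (u * u') = (l⁻¹ * ψ u) * (l'⁻¹ * ψ u') := by
          rw [map_mul]
          calc (l * l')⁻¹ * (ψ u * ψ u') = (l'⁻¹ * (l⁻¹ * ψ u)) * ψ u' := by group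
            _ = _ := by
              rw [show l'⁻¹ * (l⁻¹ * ψ u) = (l⁻¹ * ψ u) * l'⁻¹ from h5]
              group
        rw [e]
        exact C.mul_mem h2 h4
      one_mem' := by
        refine ⟨L.one_mem, ?_⟩
        show (1 : E)⁻¹ * ψ 1 ∈ C
        rw [map_one, inv_one, mul_one]
        exact C.one_mem
      inv_mem' := by
        rintro ⟨l, u⟩ ⟨h1, h2⟩
        refine ⟨L.inv_mem h1, ?_⟩
        show (l⁻¹)⁻¹ * ψ u⁻¹ ∈ C
        have h5 := (hCmem _).1 h2 _ h1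
        have e : (l⁻¹)⁻¹ * ψ u⁻¹ = (l⁻¹ * ψ u)⁻¹ := by
          have h6 : l * (l⁻¹ * ψ u) = (l⁻¹ * ψ u) * l := h5
          have h7 : l * (l⁻¹ * ψ u) * l⁻¹ = l⁻¹ * ψ u := by rw [h6, mul_inv_cancel_right]
          have h8 : (l⁻¹ * ψ u)⁻¹ = (l * (l⁻¹ * ψ u) * l⁻¹)⁻¹ := by rw [h7]
          rw [h8, map_inv]
          group
        rw [e]
        exact C.inv_mem h2 } with hS
  set f : S →* T := (MonoidHom.snd E T).comp S.subtype with hf
  have hfD : ∀ g, ((P g, D g) : E × T) ∈ S := by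
    intro g
    refine ⟨hPL g, ?_⟩
    show (P g)⁻¹ * ψ (D g) ∈ C
    rw [hPQ, inv_mul_cancel_left]
    exact hQC g
  have hfs : Function.Surjective f := by
    rw [← MonoidHom.range_eq_top, eq_top_iff, ← hD]
    have hn : f.range.Normal := by
      constructor
      rintro _ ⟨⟨⟨l, u⟩, h1, h2⟩, rfl⟩ t
      refine ⟨⟨(ψ t * l * (ψ t)⁻¹, t * u * t⁻¹), ?_, ?_⟩, rfl⟩
      · exact hLn' l h1 t
      · have h3 := hCn _ h2 t⁻¹
        rw [map_inv, inv_inv] at h3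
        show (ψ t * l * (ψ t)⁻¹)⁻¹ * ψ (t * u * t⁻¹) ∈ C
        have e : (ψ t * l * (ψ t)⁻¹)⁻¹ * ψ (t * u * t⁻¹) = ψ t * (l⁻¹ * ψ u) * (ψ t)⁻¹ := by
          rw [map_mul, map_mul, map_inv]
          group
        rw [e]
        exact h3
    refine Subgroup.normalClosure_le_normal ?_
    rintro _ ⟨g, rfl⟩
    exact ⟨⟨(P g, D g), hfD g⟩, rfl⟩
  have hker : f.ker ≤ Subgroup.center S := by
    rintro ⟨⟨l, u⟩, h1, h2⟩ h3
    have hu : u = 1 := h3
    subst hu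
    rw [Subgroup.mem_center_iff]
    rintro ⟨⟨l', u'⟩, h1', h2'⟩
    apply Subtype.ext
    show (l' * l, u' * 1) = (l * l', 1 * u')
    have h4 : l⁻¹ ∈ C := by
      have : (l, (1 : T)).1⁻¹ * ψ (l, (1 : T)).2 ∈ C := h2
      simpa using this
    have h5 := (hCmem _).1 h4 l' h1'
    have h6 : l' * l = l * l' := by
      have : l * (l' * l⁻¹) * l = l * (l⁻¹ * l') * l := by rw [h5]
      simpa [mul_assoc] using this.symm
    rw [h6, mul_one, one_mul]
  obtain ⟨s, hs⟩ := hT S f hfs hker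
  have hs2 : ∀ t, (s t : E × T).2 = t := hs
  have hsL : ∀ t, (s t : E × T).1 ∈ L := fun t => (s t).2.1
  have hsC : ∀ t, ((s t : E × T).1)⁻¹ * ψ t ∈ C := by
    intro t
    have h1 : ((s t : E × T).1)⁻¹ * ψ (s t : E × T).2 ∈ C := (s t).2.2
    rwa [hs2 t] at h1
  set σ : T →* E := (MonoidHom.fst E T).comp (S.subtype.comp s) with hσ
  have hσL : ∀ t, σ t ∈ L := hsL
  have hσC : ∀ t, (σ t)⁻¹ * ψ t ∈ C := hsC
  have hcom : ∀ l ∈ L, ∀ c ∈ C, Commute l c := fun l hl c hcc => (hCmem c).1 hcc l hl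
  set σ' : T →* E := MonoidHom.mk' (fun t => (σ t)⁻¹ * ψ t) (by
    intro a b
    have h1 := (hcom _ (L.inv_mem (hσL b)) _ (hσC a)).eq
    calc (σ (a * b))⁻¹ * ψ (a * b) = ((σ b)⁻¹ * ((σ a)⁻¹ * ψ a)) * ψ b := by
          rw [map_mul, map_mul]
          group
      _ = _ := by
          rw [h1]
          group) with hσ'
  have hσσ : ∀ t, σ t * σ' t = ψ t := by
    intro t
    show σ t * ((σ t)⁻¹ * ψ t) = ψ t
    rw [mul_inv_cancel_left]
  have hP : ∀ g, σ (D g) = P g := by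
    -- the difference is central in `L`
    have hz : ∀ g, ∀ l ∈ L, Commute (σ (D g) * (P g)⁻¹) l := by
      intro g l hl
      have h1 := hσC (D g)
      have h2 : (P g)⁻¹ * ψ (D g) ∈ C := by
        rw [hPQ, inv_mul_cancel_left]
        exact hQC g
      have h3 : (P g)⁻¹ * σ (D g) ∈ C := by
        have := C.mul_mem h2 (C.inv_mem h1)
        have e : (P g)⁻¹ * ψ (D g) * ((σ (D g))⁻¹ * ψ (D g))⁻¹ = (P g)⁻¹ * σ (D g) := by group
        rwa [e] at this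
      have h4 := (hcom _ (hPL g) _ h3).eq
      have h5 : σ (D g) * (P g)⁻¹ = (P g)⁻¹ * σ (D g) := by
        have h6 : P g * ((P g)⁻¹ * σ (D g)) = σ (D g) := by group
        rw [h6] at h4
        calc σ (D g) * (P g)⁻¹ = ((P g)⁻¹ * σ (D g) * P g) * (P g)⁻¹ := by rw [← h4]
          _ = _ := by group
      rw [h5]
      exact (hcom l hl _ h3).symm
    intro g
    have key := perfect_kill' hG (fun g => σ (D g) * (P g)⁻¹) (by
      intro x y
      show σ (D (x * y)) * (P (x * y))⁻¹ = σ (D x) * (P x)⁻¹ * (σ (D y) * (P y)⁻¹)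
      have h1 := (hz y _ (L.inv_mem (hPL x))).eq
      rw [map_mul, map_mul, map_mul]
      calc σ (D x) * σ (D y) * (P x * P y)⁻¹ = σ (D x) * ((σ (D y) * (P y)⁻¹) * (P x)⁻¹) := by group
        _ = _ := by
          rw [h1]
          group) (fun x y => hz x _ (L.mul_mem (hσL _) (L.inv_mem (hPL _)))) g
    have h1 : σ (D g) * (P g)⁻¹ = 1 := key
    exact mul_inv_eq_one.1 h1
  refine ⟨σ, σ', fun t t' => hcom _ (hσL t) _ (hσC t'), hσσ, hP, fun g => ?_⟩
  have h1 := hσσ (D g)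
  rw [hP, hPQ] at h1
  exact mul_left_cancel h1

end Pool.Agent.H72.DEF
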