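import Pool.Agent.H72.DEF.Dbl

/-!
Locality: the combined relators `relL` imply that the local pieces commute.
-/

set_option autoImplicit false

open scoped commutatorElement

namespace Pool.Agent.H72.DEF

/-- the combined relator of a list. -/
def relL {E κ : Type} [Group E] (B A : κ → E) : List κ → E
  | [] => 1
  | a :: as => ⁅B a, (as.map A).prod⁆ * relL B A as

theorem relL_map {E F κ : Type} [Group E] [Group F] (f : E →* F) (B A : κ → E) (L : List κ) :
    f (relL B A L) = relL (fun a => f (B a)) (fun a => f (A a)) L := by
  induction L with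
  | nil => exact map_one f
  | cons a as ih =>
    show f (⁅B a, (as.map A).prod⁆ * relL B A as) =
      ⁅f (B a), (as.map fun a => f (A a)).prod⁆ * relL (fun a => f (B a)) (fun a => f (A a)) as
    rw [map_mul, map_commutatorElement, ih, map_list_prod, List.map_map]
    rfl

theorem commute_list_prod {E κ : Type} [Group E] (x : E) (A : κ → E) (L : List κ)
    (h : ∀ a ∈ L, Commute x (A a)) : Commute x (L.map A).prod := by
  induction L with
  | nil => exact Commute.one_right x
  | cons a as ih =>
    rw [List.map_cons, List.prod_cons]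
    exact (h a List.mem_cons_self).mul_right (ih fun b hb => h b (List.mem_cons_of_mem _ hb))

theorem commute_relL {E κ : Type} [Group E] (x : E) (B A : κ → E) (L : List κ)
    (h : ∀ a ∈ L, Commute x (A a)) (h' : ∀ a ∈ L, Commute x (B a)) :
    Commute x (relL B A L) := by
  induction L with
  | nil => exact Commute.one_right x
  | cons a as ih =>
    have h1 : Commute x (B a) := h' a List.mem_cons_self
    have h2 : Commute x (as.map A).prod :=
      commute_list_prod x A as fun b hb => h b (List.mem_cons_of_mem _ hb)
    have h3 : Commute x ⁅B a, (as.map A).prod⁆ := by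
      rw [commutatorElement_def]
      exact ((h1.mul_right h2).mul_right h1.inv_right).mul_right h2.inv_right
    exact h3.mul_right (ih (fun b hb => h b (List.mem_cons_of_mem _ hb))
      fun b hb => h' b (List.mem_cons_of_mem _ hb))

/-- if everything commutes then the relator holds. -/
theorem relL_eq_one {E κ : Type} [Group E] (B A : κ → E) (L : List κ) (hn : L.Nodup)
    (h : ∀ a b, a ≠ b → Commute (B a) (A b)) : relL B A L = 1 := by
  induction L with
  | nil => rfl
  | cons a as ih =>
    rw [List.nodup_cons] at hn
    have h2 : Commute (B a) (as.map A).prod := by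
      refine commute_list_prod _ A as fun b hb => h a b ?_
      rintro rfl
      exact hn.1 hb
    show ⁅B a, (as.map A).prod⁆ * relL B A as = 1
    rw [ih hn.2, mul_one, commutatorElement_eq_one_iff_commute]
    exact h2

/-- the locality lemma. -/
theorem locality {G E κ : Type} [Group G] [Group E] (hG : commutator G = ⊤)
    (α β δ : κ → G →* E)
    (h1 : ∀ a b s h, a ≠ b → Commute (δ a s) (α b h))
    (h2 : ∀ a b s g, a ≠ b → Commute (δ a s) (β b g))
    (h3 : ∀ a b g h, a ≠ b → Commute (α a g) (α b h))
    (h4 : ∀ a s h, (δ a s)⁻¹ * α a h * δ a s = α a (s⁻¹ * h * s))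
    (h5 : ∀ a s g, (δ a s)⁻¹ * β a g * δ a s = β a (s⁻¹ * g * s))
    (L : List κ) (hn : L.Nodup)
    (hr : ∀ g h, relL (fun a => β a g) (fun a => α a h) L = 1) :
    L.Pairwise (fun a b => ∀ g h, Commute (β a g) (α b h)) := by
  classical
  induction L with
  | nil => exact List.Pairwise.nil
  | cons a as ih =>
    rw [List.nodup_cons] at hn
    obtain ⟨ha, hn⟩ := hn
    have hne : ∀ b ∈ as, a ≠ b := by
      rintro b hb rfl
      exact ha hb
    -- the first term
    have key : ∀ g h, Commute (β a g) (as.map fun b => α b h).prod := by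
      intro g h
      set X := (as.map fun b => α b h).prod with hX
      have hδX : ∀ s, Commute (δ a s) X := fun s =>
        commute_list_prod _ _ as fun b hb => h1 a b s h (hne b hb)
      have hδR : ∀ s g, Commute (δ a s) (relL (fun a => β a g) (fun a => α a h) as) :=
        fun s g => commute_relL _ _ _ as (fun b hb => h1 a b s h (hne b hb))
          fun b hb => h2 a b s g (hne b hb)
      have hrel : ∀ g, ⁅β a g, X⁆ * relL (fun a => β a g) (fun a => α a h) as = 1 :=
        fun g => hr g h
      have hconj : ∀ g s : G, Commute (β a ⁅g, s⁆) X := by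
        intro g s
        have e1 := hrel (g⁻¹)
        have e2 : (δ a s⁻¹)⁻¹ * (⁅β a g⁻¹, X⁆ *
            relL (fun a => β a g⁻¹) (fun a => α a h) as) * δ a s⁻¹ = 1 := by
          rw [e1, mul_one, inv_mul_cancel]
        set R := relL (fun a => β a g⁻¹) (fun a => α a h) as with hR
        have hRR := (hδR s⁻¹ g⁻¹).eq
        have hXX := (hδX s⁻¹).eq
        set d := δ a s⁻¹ with hd
        have e3 : d⁻¹ * (⁅β a g⁻¹, X⁆ * R) * d = ⁅d⁻¹ * β a g⁻¹ * d, X⁆ * R := by
          have hX' : d⁻¹ * X * d = X := by rw [mul_assoc, ← hXX, inv_mul_cancel_left]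
          have hR' : d⁻¹ * R * d = R := by rw [mul_assoc, ← hRR, inv_mul_cancel_left]
          calc d⁻¹ * (⁅β a g⁻¹, X⁆ * R) * d
              = ⁅d⁻¹ * β a g⁻¹ * d, d⁻¹ * X * d⁆ * (d⁻¹ * R * d) := by
                rw [commutatorElement_def, commutatorElement_def]
                group
            _ = _ := by rw [hX', hR']
        rw [e3, ← e1, h5 a s⁻¹ g⁻¹] at e2
        have e4 := mul_right_cancel e2
        have e5 : (β a g⁻¹)⁻¹ * β a ((s⁻¹)⁻¹ * g⁻¹ * s⁻¹) = β a ⁅g, s⁆ := by
          rw [← map_inv, ← map_mul, commutatorElement_def]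
          congr 1
          group
        rw [← e5]
        rw [commutatorElement_def, commutatorElement_def] at e4
        have e6 := mul_right_cancel e4
        set p := β a ((s⁻¹)⁻¹ * g⁻¹ * s⁻¹) with hp
        set p' := β a g⁻¹ with hp'
        show p'⁻¹ * p * X = X * (p'⁻¹ * p)
        calc p'⁻¹ * p * X = p'⁻¹ * (p * X * p⁻¹) * p := by group
          _ = p'⁻¹ * (p' * X * p'⁻¹) * p := by rw [e6]
          _ = _ := by group
      have := perfect_ind hG ((Subgroup.centralizer {X}).comap (β a)) (by
        intro x y
        rw [Subgroup.mem_comap, Subgroup.mem_centralizer_iff]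
        rintro _ rfl
        exact (hconj x y).eq.symm) g
      rw [Subgroup.mem_comap, Subgroup.mem_centralizer_iff] at this
      exact (this X rfl).symm
    rw [List.pairwise_cons]
    refine ⟨?_, ih hn ?_⟩
    · intro b hb g h
      have hab := hne b hb
      -- split off the factor `b`
      have hsplit : ∀ h, (as.map fun c => α c h).prod =
          α b h * ((as.erase b).map fun c => α c h).prod := by
        intro h
        rw [← List.prod_cons, ← List.map_cons (f := fun c => α c h)]
        refine List.Perm.prod_eq' ((List.perm_cons_erase hb).map _) ?_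
        rw [List.pairwise_map]
        refine List.Pairwise.imp_of_mem (R := fun _ _ => True) ?_ (List.pairwise_of_forall fun _ _ => trivial)
        intro c c' _ _ _
        by_cases hcc : c = c'
        · rw [hcc]
        · exact h3 c c' h h hcc
      have hbe : b ∉ as.erase b := hn.not_mem_erase
      have hcomm : ∀ x y : G, Commute (β a g) (α b ⁅x, y⁆) := by
        intro x y
        -- conjugate by `δ b x⁻¹`
        set Y := ((as.erase b).map fun c => α c y).prod with hY
        have hYd : Commute (δ b x⁻¹) Y := by
          refine commute_list_prod _ _ _ fun c hc => h1 b c x⁻¹ y ?_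
          rintro rfl
          exact hbe hc
        have k1 : Commute (β a g) (α b y * Y) := by
          rw [hY, ← hsplit]
          exact key g y
        have k2 : Commute (δ b x⁻¹) (β a g) := h2 b a x⁻¹ g (Ne.symm hab)
        have k3 : Commute (β a g) ((δ b x⁻¹)⁻¹ * (α b y * Y) * δ b x⁻¹) :=
          ((k2.symm.inv_right).mul_right k1).mul_right k2.symm
        have e1 : (δ b x⁻¹)⁻¹ * (α b y * Y) * δ b x⁻¹ = α b (x * y * x⁻¹) * Y := by
          have h6 := h4 b x⁻¹ y
          rw [inv_inv] at h6
          calc (δ b x⁻¹)⁻¹ * (α b y * Y) * δ b x⁻¹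
              = (δ b x⁻¹)⁻¹ * α b y * (Y * δ b x⁻¹) := by group
            _ = (δ b x⁻¹)⁻¹ * α b y * (δ b x⁻¹ * Y) := by rw [hYd.eq]
            _ = ((δ b x⁻¹)⁻¹ * α b y * δ b x⁻¹) * Y := by group
            _ = _ := by rw [h6]
        rw [e1] at k3
        have k4 := k3.mul_right k1.inv_right
        have e2 : α b (x * y * x⁻¹) * Y * (α b y * Y)⁻¹ = α b ⁅x, y⁆ := by
          rw [commutatorElement_def, map_mul (α b) (x * y * x⁻¹) y⁻¹, map_inv]
          group
        rwa [e2] at k4
      have := perfect_ind hG ((Subgroup.centralizer {β a g}).comap (α b)) (by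
        intro x y
        rw [Subgroup.mem_comap, Subgroup.mem_centralizer_iff]
        rintro _ rfl
        exact (hcomm x y).eq) h
      rw [Subgroup.mem_comap, Subgroup.mem_centralizer_iff] at this
      exact this _ rfl
    · intro g h
      have e1 : ⁅β a g, (as.map fun b => α b h).prod⁆ *
        relL (fun a => β a g) (fun a => α a h) as = 1 := hr g h
      have e2 := commutatorElement_eq_one_iff_commute.2 (key g h)
      rw [e2, one_mul] at e1
      exact e1

end Pool.Agent.H72.DEF
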