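import Pool.Agent.H72.DEF.Rel

/-!
The standard model, the presentation and the bound for the number of relators.
-/

set_option autoImplicit false

open scoped commutatorElement

namespace Pool.Agent.H72.DEF

section

variable {G : Type} [Group G]

/-- the generators in the standard model. -/
def e0 (r : ℕ) : Option ℕ → G → (K r × Bool → G)
  | none, g => fun _ => g
  | some l, g => fun x => if dig (r + 1) l x then g else 1

/-- the windows of the standard model. -/
def psi0 (r i j : ℕ) : (K i × Bool → G) →* (K r × Bool → G) :=
  MonoidHom.mk' (fun f x => f (mkK i (fun l => dig (r + 1) l x), dig (r + 1) j x)) (fun _ _ => rfl)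

theorem win0 (r i j : ℕ) : IsWin (e0 (G := G) r) i j (psi0 r i j) := by
  refine ⟨fun g => rfl, ?_, fun g => rfl⟩
  intro l hl g
  funext x
  show (if dig i l (mkK i fun l => dig (r + 1) l x) then g else 1) =
    if dig (r + 1) l x then g else 1
  rw [dig_mkK i l hl]

theorem win_id (r : ℕ) : IsWin (e0 (G := G) r) r r (MonoidHom.id (K r × Bool → G)) := by
  refine ⟨fun g => rfl, ?_, ?_⟩
  · intro l hl g
    funext x
    show (if dig r l x.1 then g else 1) = if dig (r + 1) l x then g else 1
    have e : dig (r + 1) l x = dig r l x.1 := by rw [dig_succ, if_neg (by omega)]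
    rw [e]
  · intro g
    funext x
    show (if x.2 then g else 1) = if dig (r + 1) r x then g else 1
    have e : dig (r + 1) r x = x.2 := by rw [dig_succ, if_pos rfl]
    rw [e]

/-- the relators hold in the standard model. -/
theorem rel0 (hG : commutator G = ⊤) (r i j : ℕ) (g h s : G) (c : Fin 6) :
    FreeGroup.lift (fun x => e0 (G := G) r x.1 x.2) (rltr i j g h s c) = 1 := by
  have hrel : ∀ L : List (K i), L.Nodup → FreeGroup.lift (fun x => e0 (G := G) r x.1 x.2)
      (relL (fun a => wd i j (Pi.mulSingle (a, true) g))
        (fun a => wd i i (Pi.mulSingle (a, true) h)) L) = 1 := by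
    intro L hL
    rw [relL_map]
    refine relL_eq_one _ _ L hL ?_
    intro a b hab
    rw [wd_spec hG i j _ (win0 r i j), wd_spec hG i i _ (win0 r i i)]
    funext x
    show (Pi.mulSingle (a, true) g : K i × Bool → G) (mkK i (fun l => dig (r + 1) l x),
        dig (r + 1) j x) * (Pi.mulSingle (b, true) h : K i × Bool → G)
          (mkK i (fun l => dig (r + 1) l x), dig (r + 1) i x) =
      (Pi.mulSingle (b, true) h : K i × Bool → G)
          (mkK i (fun l => dig (r + 1) l x), dig (r + 1) i x) *
        (Pi.mulSingle (a, true) g : K i × Bool → G) (mkK i (fun l => dig (r + 1) l x),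
        dig (r + 1) j x)
    set y := mkK i (fun l => dig (r + 1) l x)
    by_cases hy : y = a
    · have hyb : y ≠ b := by rw [hy]; exact hab
      rw [Pi.mulSingle_eq_of_ne (show (y, dig (r + 1) i x) ≠ (b, true) by simp [hyb]), mul_one,
        one_mul]
    · rw [Pi.mulSingle_eq_of_ne (show (y, dig (r + 1) j x) ≠ (a, true) by simp [hy]), mul_one,
        one_mul]
  have h5 : ∀ (p q : K r × Bool → G), (∀ x, p x = 1 ∨ q x = 1) → ⁅p, q⁆ = 1 := by
    intro p q hpq
    funext x
    show ⁅p x, q x⁆ = 1
    rcases hpq x with h | h
    · rw [h, commutatorElement_one_left]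
    · rw [h, commutatorElement_one_right]
  fin_cases c
  · show FreeGroup.lift (fun x => e0 (G := G) r x.1 x.2)
      (gl none g * gl none h * (gl none (g * h))⁻¹) = 1
    rw [map_mul, map_mul, map_inv, lift_gl, lift_gl, lift_gl, mul_inv_eq_one]
    rfl
  · show FreeGroup.lift (fun x => e0 (G := G) r x.1 x.2)
      (gl (some i) g * gl (some i) h * (gl (some i) (g * h))⁻¹) = 1
    rw [map_mul, map_mul, map_inv, lift_gl, lift_gl, lift_gl, mul_inv_eq_one]
    funext x
    show (if dig (r + 1) i x then g else 1) * (if dig (r + 1) i x then h else 1) =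
      if dig (r + 1) i x then g * h else 1
    split_ifs
    · rfl
    · rw [mul_one]
  · show FreeGroup.lift (fun x => e0 (G := G) r x.1 x.2)
      ⁅gl (some i) g, (gl (some i) h)⁻¹ * gl none h⁆ = 1
    rw [map_commutatorElement, map_mul, map_inv, lift_gl, lift_gl, lift_gl]
    refine h5 _ _ fun x => ?_
    show (if dig (r + 1) i x then g else 1) = 1 ∨ (if dig (r + 1) i x then h else 1)⁻¹ * h = 1
    by_cases hx : dig (r + 1) i x = true
    · right
      rw [if_pos hx, inv_mul_cancel]
    · left
      rw [if_neg hx]
  · exact hrel _ (Finset.nodup_toList _)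
  · exact hrel _ (List.nodup_reverse.2 (Finset.nodup_toList _))
  · show FreeGroup.lift (fun x => e0 (G := G) r x.1 x.2)
      ⁅gl (some j) g, (gl (some i) s)⁻¹ * ((gl (some j) h)⁻¹ * gl none h) * gl (some i) s⁆ = 1
    rw [map_commutatorElement, map_mul, map_mul, map_inv, map_mul, map_inv, lift_gl, lift_gl,
      lift_gl, lift_gl]
    refine h5 _ _ fun x => ?_
    show (if dig (r + 1) j x then g else 1) = 1 ∨ (if dig (r + 1) i x then s else 1)⁻¹ *
      ((if dig (r + 1) j x then h else 1)⁻¹ * h) * (if dig (r + 1) i x then s else 1) = 1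
    by_cases hx : dig (r + 1) j x = true
    · right
      rw [if_pos hx, inv_mul_cancel, mul_one, inv_mul_cancel]
    · left
      rw [if_neg hx]

/-- the generating set. -/
abbrev Gen (G : Type) (r : ℕ) : Type := Option (Fin (r + 1)) × G

/-- a letter as an element of the free group on finitely many generators. -/
def letter (r : ℕ) : Option ℕ × G → FreeGroup (Gen G r)
  | (none, g) => FreeGroup.of (none, g)
  | (some l, g) => if h : l < r + 1 then FreeGroup.of (some ⟨l, h⟩, g) else 1

/-- truncation. -/
def trunc (r : ℕ) : FreeGroup (Option ℕ × G) →* FreeGroup (Gen G r) := FreeGroup.lift (letter r)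

/-- evaluation. -/
def phi (r : ℕ) : FreeGroup (Gen G r) →* (K r × Bool → G) :=
  FreeGroup.lift (fun x => e0 r (x.1.map Fin.val) x.2)

theorem phi_trunc (r : ℕ) (w : FreeGroup (Option ℕ × G)) :
    phi r (trunc r w) = FreeGroup.lift (fun x => e0 (G := G) r x.1 x.2) w := by
  have : (phi (G := G) r).comp (trunc r) = FreeGroup.lift (fun x => e0 (G := G) r x.1 x.2) := by
    refine FreeGroup.ext_hom _ _ fun x => ?_
    obtain ⟨o, g⟩ := x
    rw [MonoidHom.comp_apply, FreeGroup.lift_apply_of]
    unfold trunc
    rw [FreeGroup.lift_apply_of]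
    cases o with
    | none =>
      show phi r (FreeGroup.of (none, g)) = _
      unfold phi
      rw [FreeGroup.lift_apply_of]
      rfl
    | some l =>
      show phi r (if h : l < r + 1 then FreeGroup.of (some ⟨l, h⟩, g) else 1) = _
      split_ifs with h
      · unfold phi
        rw [FreeGroup.lift_apply_of]
        rfl
      · rw [map_one]
        funext x
        show (1 : G) = if dig (r + 1) l x then g else 1
        rw [dig_ge (r + 1) l (by omega) x]
        simp
  exact DFunLike.congr_fun this w

theorem phi_surj (hG : commutator G = ⊤) (r : ℕ) : Function.Surjective (phi (G := G) r) := by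
  intro t
  refine ⟨trunc r (wd r r t), ?_⟩
  rw [phi_trunc, wd_spec hG r r t (win_id r)]
  rfl

variable [Fintype G]

open Classical in
/-- the relators. -/
noncomputable def relSet (G : Type) [Group G] [Fintype G] (r : ℕ) : Finset (FreeGroup (Gen G r)) :=
  (Finset.univ : Finset (Fin (r + 1) × Fin (r + 1) × G × G × G × Fin 6)).image
    (fun x => trunc r (rltr x.1 x.2.1 x.2.2.1 x.2.2.2.1 x.2.2.2.2.1 x.2.2.2.2.2))

open Classical in
theorem relSet_coe (r : ℕ) : (relSet G r : Set (FreeGroup (Gen G r))) =
    Set.range (fun x : Fin (r + 1) × Fin (r + 1) × G × G × G × Fin 6 =>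
      trunc r (rltr x.1.1 x.2.1.1 x.2.2.1 x.2.2.2.1 x.2.2.2.2.1 x.2.2.2.2.2)) := by
  unfold relSet
  rw [Finset.coe_image, Finset.coe_univ, Set.image_univ]

open Classical in
theorem relSet_card (r : ℕ) : (relSet G r).card ≤ 6 * (r + 1) ^ 2 * Fintype.card G ^ 3 := by
  refine Finset.card_image_le.trans (le_of_eq ?_)
  rw [Finset.card_univ]
  simp only [Fintype.card_prod, Fintype.card_fin]
  ring

theorem phi_ker (hG : commutator G = ⊤) (hS : Sec G) (r : ℕ) :
    (phi (G := G) r).ker = Subgroup.normalClosure (relSet G r : Set (FreeGroup (Gen G r))) := by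
  apply le_antisymm
  · set N := Subgroup.normalClosure (relSet G r : Set (FreeGroup (Gen G r))) with hN
    set π : FreeGroup (Gen G r) →* FreeGroup (Gen G r) ⧸ N := QuotientGroup.mk' N with hπ
    set e : Option ℕ → G → FreeGroup (Gen G r) ⧸ N := fun o g => π (letter r (o, g)) with he
    have hlift : ∀ w, FreeGroup.lift (fun x => e x.1 x.2) w = π (trunc r w) := by
      intro w
      have : FreeGroup.lift (fun x : Option ℕ × G => e x.1 x.2) = π.comp (trunc r) := by
        refine FreeGroup.ext_hom _ _ fun x => ?_
        rw [FreeGroup.lift_apply_of, MonoidHom.comp_apply]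
        unfold trunc
        rw [FreeGroup.lift_apply_of]
      rw [this]
      rfl
    have hsat : Sat e (r + 1) := by
      constructor
      intro i j hij hj g h s c _
      rw [hlift]
      have hmem : trunc r (rltr i j g h s c) ∈ N := by
        apply Subgroup.subset_normalClosure
        rw [relSet_coe]
        exact ⟨(⟨i, by omega⟩, ⟨j, hj⟩, g, h, s, c), rfl⟩
      exact (QuotientGroup.eq_one_iff _).2 hmem
    obtain ⟨ψ, hψ⟩ := hsat.win hG hS r r le_rfl (by omega)
    have hcomp : ψ.comp (phi r) = π := by
      refine FreeGroup.ext_hom _ _ fun x => ?_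
      obtain ⟨o, g⟩ := x
      rw [MonoidHom.comp_apply]
      unfold phi
      rw [FreeGroup.lift_apply_of]
      cases o with
      | none => exact hψ.const g
      | some l =>
        have e1 : e (some l.1) g = π (FreeGroup.of (some l, g)) := by
          show π (if h : l.1 < r + 1 then FreeGroup.of (some ⟨l.1, h⟩, g) else 1) = _
          rw [dif_pos l.2]
        rw [← e1]
        show ψ (fun x => if dig (r + 1) l.1 x then g else 1) = e (some l.1) g
        by_cases hl : l.1 = r
        · have e2 : (fun x : K r × Bool => if dig (r + 1) l.1 x then g else (1 : G)) =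
              fun x => if x.2 then g else 1 := by
            funext x
            rw [dig_succ, if_pos hl]
          rw [e2, hl]
          exact hψ.top g
        · have e2 : (fun x : K r × Bool => if dig (r + 1) l.1 x then g else (1 : G)) =
              fun x => if dig r l.1 x.1 then g else 1 := by
            funext x
            rw [dig_succ, if_neg hl]
          rw [e2]
          exact hψ.low l.1 (by have := l.2; omega) g
    intro x hx
    rw [MonoidHom.mem_ker] at hx
    have h1 : π x = 1 := by
      rw [← hcomp, MonoidHom.comp_apply, hx, map_one]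
    exact (QuotientGroup.eq_one_iff x).1 h1
  · refine Subgroup.normalClosure_le_normal ?_
    intro x hx
    rw [relSet_coe] at hx
    obtain ⟨y, rfl⟩ := hx
    show phi r (trunc r _) = 1
    rw [phi_trunc]
    exact rel0 hG r _ _ _ _ _ _

/-- transport to a standard free group. -/
theorem transport {α Q : Type} [Fintype α] [Group Q] (f : FreeGroup α →* Q)
    (hf : Function.Surjective f) (A : Finset (FreeGroup α))
    (hA : f.ker = Subgroup.normalClosure (A : Set (FreeGroup α))) :
    ∃ R : Finset (FreeGroup (Fin (Fintype.card α))),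
      Nonempty (PresentedGroup (R : Set (FreeGroup (Fin (Fintype.card α)))) ≃* Q) ∧
        R.card ≤ A.card := by
  classical
  set c : FreeGroup α ≃* FreeGroup (Fin (Fintype.card α)) :=
    FreeGroup.freeGroupCongr (Fintype.equivFin α) with hc
  refine ⟨A.image c, ?_, Finset.card_image_le⟩
  set f' : FreeGroup (Fin (Fintype.card α)) →* Q := f.comp c.symm.toMonoidHom with hf'
  have hsurj : Function.Surjective f' := hf.comp c.symm.surjective
  have hker : f'.ker = Subgroup.normalClosure
      ((A.image c : Finset (FreeGroup (Fin (Fintype.card α)))) :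
        Set (FreeGroup (Fin (Fintype.card α)))) := by
    have h1 := Subgroup.map_normalClosure (A : Set (FreeGroup α)) c.toMonoidHom c.surjective
    rw [Finset.coe_image]
    have h2 : (c.toMonoidHom : FreeGroup α → FreeGroup (Fin (Fintype.card α))) ''
        (A : Set (FreeGroup α)) = c '' (A : Set (FreeGroup α)) := rfl
    rw [← h2, ← h1, ← hA]
    ext x
    constructor
    · intro hx
      refine ⟨c.symm x, ?_, c.apply_symm_apply x⟩
      exact hx
    · rintro ⟨y, hy, rfl⟩
      show f (c.symm (c y)) = 1
      rw [c.symm_apply_apply]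
      exact hy
  exact ⟨(QuotientGroup.quotientMulEquivOfEq hker.symm).trans
    (QuotientGroup.quotientKerEquivOfSurjective f' hsurj)⟩

/-- the main bound. -/
theorem main_bound (hG : commutator G = ⊤) (hS : Sec G) (r n : ℕ) (hn : n ≤ 2 ^ (r + 1)) :
    ∃ (m : ℕ) (R : Finset (FreeGroup (Fin m))),
      Nonempty (PresentedGroup (R : Set (FreeGroup (Fin m))) ≃* (Fin n → G)) ∧
        R.card ≤ 7 * Fintype.card G ^ 3 * (r + 1) ^ 2 := by
  classical
  -- an embedding
  have hcard : Fintype.card (Fin n) ≤ Fintype.card (K r × Bool) := by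
    rw [Fintype.card_fin, Fintype.card_prod, card_K, Fintype.card_bool, ← pow_succ]
    exact hn
  obtain ⟨ι⟩ := Function.Embedding.nonempty_of_card_le hcard
  set ρ : (K r × Bool → G) →* (Fin n → G) := MonoidHom.mk' (fun f i => f (ι i)) (fun _ _ => rfl)
    with hρ
  have hρs : Function.Surjective ρ := by
    intro y
    refine ⟨fun x => if h : ∃ i, ι i = x then y h.choose else 1, ?_⟩
    funext i
    show (if h : ∃ i', ι i' = ι i then y h.choose else 1) = y i
    have hex : ∃ i', ι i' = ι i := ⟨i, rfl⟩
    rw [dif_pos hex]
    congr 1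
    exact ι.injective hex.choose_spec
  -- the elements to be killed
  set ω : G → (K r × Bool → G) := fun g x => if x ∈ Set.range ι then 1 else g with hω
  have hker1 : ρ.ker ≤ Subgroup.normalClosure (Set.range ω) := by
    intro x hx
    refine Subgroup.pi_mem_of_mulSingle_mem x fun i => ?_
    by_cases hi : i ∈ Set.range ι
    · obtain ⟨a, rfl⟩ := hi
      have h1 : ρ x a = 1 := by
        rw [MonoidHom.mem_ker] at hx
        rw [hx]
        rfl
      have h2 : x (ι a) = 1 := h1
      rw [h2, Pi.mulSingle_one]
      exact Subgroup.one_mem _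
    · set N := Subgroup.normalClosure (Set.range ω) with hN
      refine perfect_ind hG (N.comap (MonoidHom.mulSingle (fun _ : K r × Bool => G) i)) ?_ (x i)
      intro g h
      rw [Subgroup.mem_comap]
      have h1 : ω g ∈ N := Subgroup.subset_normalClosure ⟨g, rfl⟩
      have h2 : MonoidHom.mulSingle (fun _ : K r × Bool => G) i ⁅g, h⁆ =
          ω g * ((Pi.mulSingle i h : K r × Bool → G) * (ω g)⁻¹ *
            (Pi.mulSingle i h : K r × Bool → G)⁻¹) := by
        funext j
        show (Pi.mulSingle i ⁅g, h⁆ : K r × Bool → G) j = ω g j *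
          ((Pi.mulSingle i h : K r × Bool → G) j * (ω g j)⁻¹ *
            ((Pi.mulSingle i h : K r × Bool → G) j)⁻¹)
        by_cases hj : j = i
        · subst hj
          have h3 : ω g j = g := if_neg hi
          rw [Pi.mulSingle_eq_same, Pi.mulSingle_eq_same, h3, commutatorElement_def]
          group
        · rw [Pi.mulSingle_eq_of_ne hj, Pi.mulSingle_eq_of_ne hj]
          group
      rw [h2]
      exact N.mul_mem h1 (Subgroup.normalClosure_normal.conj_mem _ (N.inv_mem h1) _)
  have hsurj := phi_surj hG r
  choose w hw using fun g : G => hsurj (ω g)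
  set A : Finset (FreeGroup (Gen G r)) := relSet G r ∪ Finset.univ.image w with hA
  have hAcard : A.card ≤ 7 * Fintype.card G ^ 3 * (r + 1) ^ 2 := by
    have h1 : A.card ≤ 6 * (r + 1) ^ 2 * Fintype.card G ^ 3 + Fintype.card G := by
      refine (Finset.card_union_le _ _).trans (add_le_add (relSet_card r) ?_)
      refine Finset.card_image_le.trans (le_of_eq ?_)
      exact Finset.card_univ
    have h2 : 1 ≤ Fintype.card G := Fintype.card_pos
    have h3 : Fintype.card G ≤ Fintype.card G ^ 3 := Nat.le_self_pow (by norm_num) _
    have h4 : 1 ≤ (r + 1) ^ 2 := Nat.one_le_pow _ _ (by omega)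
    nlinarith
  have hker : (ρ.comp (phi r)).ker = Subgroup.normalClosure (A : Set (FreeGroup (Gen G r))) := by
    apply le_antisymm
    · intro x hx
      have h1 : phi r x ∈ ρ.ker := hx
      have h2 := hker1 h1
      have h3 : Set.range ω = (phi r : FreeGroup (Gen G r) → _) '' (Set.range w) := by
        rw [← Set.range_comp]
        congr 1
        funext g
        exact (hw g).symm
      rw [h3, ← Subgroup.map_normalClosure (Set.range w) (phi r) hsurj] at h2
      obtain ⟨y, hy, hxy⟩ := h2
      have h4 : x * y⁻¹ ∈ (phi (G := G) r).ker := by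
        rw [MonoidHom.mem_ker, map_mul, map_inv, hxy, mul_inv_cancel]
      rw [phi_ker hG hS r] at h4
      have h5 : x * y⁻¹ ∈ Subgroup.normalClosure (A : Set (FreeGroup (Gen G r))) := by
        refine Subgroup.normalClosure_mono ?_ h4
        rw [hA, Finset.coe_union]
        exact Set.subset_union_left
      have h6 : y ∈ Subgroup.normalClosure (A : Set (FreeGroup (Gen G r))) := by
        refine Subgroup.normalClosure_mono ?_ hy
        rw [hA, Finset.coe_union, Finset.coe_image, Finset.coe_univ, Set.image_univ]
        exact Set.subset_union_right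
      have h7 := Subgroup.mul_mem _ h5 h6
      rwa [inv_mul_cancel_right] at h7
    · refine Subgroup.normalClosure_le_normal ?_
      intro x hx
      rw [hA, Finset.coe_union, Finset.coe_image, Finset.coe_univ, Set.image_univ] at hx
      show ρ (phi r x) = 1
      rcases hx with hx | ⟨g, rfl⟩
      · have h1 : x ∈ (phi (G := G) r).ker := by
          rw [phi_ker hG hS r]
          exact Subgroup.subset_normalClosure hx
        rw [MonoidHom.mem_ker.1 h1, map_one]
      · rw [hw]
        funext i
        show (if ι i ∈ Set.range ι then 1 else g) = 1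
        rw [if_pos ⟨i, rfl⟩]
  obtain ⟨R, hR, hRc⟩ := transport (ρ.comp (phi r)) (hρs.comp hsurj) A hker
  exact ⟨_, R, hR, hRc.trans hAcard⟩

end

end Pool.Agent.H72.DEF
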