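import Pool.Agent.H72.DEF.Win

/-!
The relators and the induction: a family which satisfies the relators has all windows.
-/

set_option autoImplicit false

open scoped commutatorElement

namespace Pool.Agent.H72.DEF

section

variable {G : Type} [Group G]

/-- a generator as a word. -/
def gl (o : Option ℕ) (g : G) : FreeGroup (Option ℕ × G) := FreeGroup.of (o, g)

/-- the list of all elements of `K i`. -/
noncomputable def lst (i : ℕ) : List (K i) := Finset.univ.toList

/-- the six families of relators. -/
noncomputable def rltr (i j : ℕ) (g h s : G) : Fin 6 → FreeGroup (Option ℕ × G)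
  | 0 => gl none g * gl none h * (gl none (g * h))⁻¹
  | 1 => gl (some i) g * gl (some i) h * (gl (some i) (g * h))⁻¹
  | 2 => ⁅gl (some i) g, (gl (some i) h)⁻¹ * gl none h⁆
  | 3 => relL (fun a => wd i j (Pi.mulSingle (a, true) g)) (fun a => wd i i (Pi.mulSingle (a, true) h))
      (lst i)
  | 4 => relL (fun a => wd i j (Pi.mulSingle (a, true) g)) (fun a => wd i i (Pi.mulSingle (a, true) h))
      (lst i).reverse
  | 5 => ⁅gl (some j) g, (gl (some i) s)⁻¹ * ((gl (some j) h)⁻¹ * gl none h) * gl (some i) s⁆

/-- `e` satisfies the relators with indices below `k`. -/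
structure Sat {E : Type} [Group E] (e : Option ℕ → G → E) (k : ℕ) : Prop where
  rel : ∀ i j, i ≤ j → j < k → ∀ (g h s : G) (c : Fin 6), (i < j ∨ c.1 < 3) →
    FreeGroup.lift (fun x => e x.1 x.2) (rltr i j g h s c) = 1

variable {E : Type} [Group E] {e : Option ℕ → G → E} {k : ℕ}

omit [Group G] in
theorem lift_gl (e : Option ℕ → G → E) (o : Option ℕ) (g : G) :
    FreeGroup.lift (fun x => e x.1 x.2) (gl o g) = e o g := FreeGroup.lift_apply_of

theorem Sat.none_mul (h : Sat e k) (hk : 0 < k) (x y : G) :
    e none (x * y) = e none x * e none y := by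
  have h1 := h.rel 0 0 le_rfl hk x y 1 0 (Or.inr (by decide))
  rw [rltr, map_mul, map_mul, map_inv, lift_gl, lift_gl, lift_gl, mul_inv_eq_one] at h1
  exact h1.symm

theorem Sat.some_mul (h : Sat e k) {i : ℕ} (hi : i < k) (x y : G) :
    e (some i) (x * y) = e (some i) x * e (some i) y := by
  have h1 := h.rel i i le_rfl hi x y 1 1 (Or.inr (by decide))
  rw [rltr, map_mul, map_mul, map_inv, lift_gl, lift_gl, lift_gl, mul_inv_eq_one] at h1
  exact h1.symm

theorem Sat.comm (h : Sat e k) {i : ℕ} (hi : i < k) (x y : G) :
    Commute (e (some i) x) ((e (some i) y)⁻¹ * e none y) := by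
  have h1 := h.rel i i le_rfl hi x y 1 2 (Or.inr (by decide))
  rw [rltr, map_commutatorElement, map_mul, map_inv, lift_gl, lift_gl, lift_gl,
    commutatorElement_eq_one_iff_commute] at h1
  exact h1

theorem Sat.cross (h : Sat e k) {i j : ℕ} (hij : i < j) (hj : j < k) (x y s : G) :
    Commute (e (some j) x)
      ((e (some i) s)⁻¹ * ((e (some j) y)⁻¹ * e none y) * e (some i) s) := by
  have h1 := h.rel i j hij.le hj x y s 5 (Or.inl hij)
  rw [rltr, map_commutatorElement, map_mul, map_mul, map_inv, map_mul, map_inv, lift_gl, lift_gl,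
    lift_gl, lift_gl, commutatorElement_eq_one_iff_commute] at h1
  exact h1

/-- the windows of length zero. -/
theorem Sat.base (h : Sat e k) {j : ℕ} (hj : j < k) :
    ∃ ψ : (K 0 × Bool → G) →* E, IsWin e 0 j ψ := by
  have hk : 0 < k := by omega
  set P : G →* E := MonoidHom.mk' (fun g => e (some j) g) (h.some_mul hj) with hP
  have hc := fun x y => h.comm hj x y
  set Q : G →* E := MonoidHom.mk' (fun g => (e (some j) g)⁻¹ * e none g) (by
    intro x y
    have h1 := (hc y x).eq
    have h2 := (h.comm hj y x).inv_left.eq
    rw [h.some_mul hj, h.none_mul hk]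
    calc (e (some j) x * e (some j) y)⁻¹ * (e none x * e none y)
        = ((e (some j) y)⁻¹ * ((e (some j) x)⁻¹ * e none x)) * e none y := by group
      _ = _ := by
        rw [h2]
        group) with hQ
  have hPQ : ∀ x y, Commute (P x) (Q y) := hc
  refine ⟨MonoidHom.mk' (fun t => P (t ((), true)) * Q (t ((), false))) ?_, ?_, ?_, ?_⟩
  · intro a b
    rw [Pi.mul_apply, Pi.mul_apply, map_mul, map_mul]
    have h1 := (hPQ (b ((), true)) (a ((), false))).eq
    calc P (a ((), true)) * P (b ((), true)) * (Q (a ((), false)) * Q (b ((), false)))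
        = P (a ((), true)) * (P (b ((), true)) * Q (a ((), false))) * Q (b ((), false)) := by group
      _ = _ := by
        rw [h1]
        group
  · intro g
    show e (some j) g * ((e (some j) g)⁻¹ * e none g) = e none g
    rw [mul_inv_cancel_left]
  · intro l hl
    omega
  · intro g
    show P (if true = true then g else 1) * Q (if false = true then g else 1) = e (some j) g
    rw [if_pos rfl, if_neg (by simp), map_one, mul_one]
    rfl

/-- all windows. -/
theorem Sat.win (hG : commutator G = ⊤) (hS : Sec G) (h : Sat e k) (i : ℕ) :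
    ∀ j, i ≤ j → j < k → ∃ ψ : (K i × Bool → G) →* E, IsWin e i j ψ := by
  induction i with
  | zero => intro j _ hj; exact h.base hj
  | succ i ih =>
    intro j hij hj
    obtain ⟨ψ, hψ⟩ := ih i le_rfl (by omega)
    obtain ⟨φ, hφ⟩ := ih j (by omega) hj
    have hag := fun f => win_agree hG hψ hφ f
    -- the local homomorphisms
    set α : K i → G →* E := fun a => ψ.comp (MonoidHom.mulSingle (fun _ : K i × Bool => G) (a, true))
      with hα
    set β : K i → G →* E := fun a => φ.comp (MonoidHom.mulSingle (fun _ : K i × Bool => G) (a, true))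
      with hβ
    set δ : K i → G →* E := fun a => MonoidHom.mk' (fun s => ψ (fun y => (Pi.mulSingle a s : K i → G) y.1))
      (by
        intro x y
        rw [← map_mul]
        congr 1
        funext z
        rw [Pi.mul_apply, Pi.mulSingle_mul]
        rfl) with hδ
    have hδψ : ∀ a s, δ a s = ψ (fun y => (Pi.mulSingle a s : K i → G) y.1) := fun _ _ => rfl
    have hδφ : ∀ a s, δ a s = φ (fun y => (Pi.mulSingle a s : K i → G) y.1) := fun a s =>
      hag (Pi.mulSingle a s)
    have hαa : ∀ a s, α a s = ψ (Pi.mulSingle (a, true) s) := fun _ _ => rfl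
    have hβa : ∀ a s, β a s = φ (Pi.mulSingle (a, true) s) := fun _ _ => rfl
    have hfc : ∀ (a b : K i) (s g : G), a ≠ b →
        Commute (fun y : K i × Bool => (Pi.mulSingle a s : K i → G) y.1)
          (Pi.mulSingle (b, true) g) := by
      intro a b s g hab
      rw [ms_fst]
      exact (ms_commute a b true true s g hab).mul_left (ms_commute a b false true s g hab)
    have hconj : ∀ (a : K i) (s g : G),
        (fun y : K i × Bool => (Pi.mulSingle a s : K i → G) y.1)⁻¹ * Pi.mulSingle (a, true) g *
          (fun y : K i × Bool => (Pi.mulSingle a s : K i → G) y.1) =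
          Pi.mulSingle (a, true) (s⁻¹ * g * s) := by
      intro a s g
      funext y
      rw [Pi.mul_apply, Pi.mul_apply, Pi.inv_apply]
      by_cases hy : y = (a, true)
      · subst hy
        rw [Pi.mulSingle_eq_same, Pi.mulSingle_eq_same, Pi.mulSingle_eq_same]
      · rw [Pi.mulSingle_eq_of_ne hy, Pi.mulSingle_eq_of_ne hy, mul_one, inv_mul_cancel]
    have hrelL : ∀ (L : List (K i)) (g k : G),
        relL (fun a => β a g) (fun a => α a k) L =
        FreeGroup.lift (fun x => e x.1 x.2) (relL (fun a => wd i j (Pi.mulSingle (a, true) g))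
          (fun a => wd i i (Pi.mulSingle (a, true) k)) L) := by
      intro L g k
      rw [relL_map]
      congr 1
      · funext a
        rw [wd_spec hG i j _ hφ]
        rfl
      · funext a
        rw [wd_spec hG i i _ hψ]
        rfl
    have hloc : ∀ L : List (K i), L.Nodup →
        (∀ g k, relL (fun a => β a g) (fun a => α a k) L = 1) →
        L.Pairwise (fun a b => ∀ g k, Commute (β a g) (α b k)) := fun L hL hr =>
      locality hG α β δ
        (fun a b s g hab => (hfc a b s g hab).map ψ)
        (fun a b s g hab => by
          rw [hδφ]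
          exact (hfc a b s g hab).map φ)
        (fun a b g k hab => (ms_commute a b true true g k hab).map ψ)
        (fun a s g => by
          rw [hδψ, hαa, hαa, ← hconj, map_mul, map_mul, map_inv])
        (fun a s g => by
          rw [hδφ, hβa, hβa, ← hconj, map_mul, map_mul, map_inv]) L hL hr
    have hn : (lst i).Nodup := Finset.nodup_toList _
    have p1 := hloc (lst i) hn (by
      intro g k
      rw [hrelL]
      exact h.rel i j (by omega) hj g k 1 3 (Or.inl (by omega)))
    have p2 := hloc (lst i).reverse (List.nodup_reverse.2 hn) (by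
      intro g k
      rw [hrelL]
      exact h.rel i j (by omega) hj g k 1 4 (Or.inl (by omega)))
    rw [List.pairwise_reverse] at p2
    have p3 := p1.and p2
    have hall : ∀ a b, a ≠ b → ∀ g k, Commute (β a g) (α b k) := by
      intro a b hab g k
      have hsym : Std.Symm fun a b : K i => (∀ g k, Commute (β a g) (α b k)) ∧
          (∀ g k, Commute (β b g) (α a k)) := ⟨fun _ _ hh => ⟨hh.2, hh.1⟩⟩
      have := p3.forall (show a ∈ lst i from Finset.mem_toList.2 (Finset.mem_univ _))
        (show b ∈ lst i from Finset.mem_toList.2 (Finset.mem_univ _)) hab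
      exact this.1 g k
    have hbot : ∀ g, φ (fun y => if y.2 then 1 else g) = (e (some j) g)⁻¹ * e none g := by
      intro g
      rw [← hφ.top, ← hφ.const, ← map_inv, ← map_mul]
      congr 1
      funext y
      rw [Pi.mul_apply, Pi.inv_apply]
      cases y.2
      · simp
      · simp
    have hst : StepHyp ψ φ := ⟨hag, fun a b g k hab => hall a b hab g k, by
      intro g k s
      rw [hφ.top, hψ.top, hbot]
      exact h.cross (by omega) hj g k s⟩
    have hstep : ∃ χ : (K (i + 1) × Bool → G) →* E,
        (∀ f : K (i + 1) → G, χ (fun y => f y.1) = ψ f) ∧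
        (∀ g : G, χ (fun y => if y.2 then g else 1) = φ (fun y => if y.2 then g else 1)) :=
      step hG hS hst
    obtain ⟨χ, h1, h2⟩ := hstep
    refine ⟨χ, ?_, ?_, ?_⟩
    · intro g
      rw [← hψ.const]
      exact h1 (fun _ => g)
    · intro l hl g
      have e1 : χ (fun x => if dig (i + 1) l x.1 then g else 1) =
          ψ (fun x : K i × Bool => if dig (i + 1) l x then g else 1) :=
        h1 (fun x : K i × Bool => if dig (i + 1) l x then g else 1)
      rw [e1]
      by_cases hli : l = i
      · subst hli
        have e2 : (fun x : K l × Bool => if dig (l + 1) l x then g else (1 : G)) =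
            fun x => if x.2 then g else 1 := by
          funext x
          rw [dig_succ, if_pos rfl]
        rw [e2]
        exact hψ.top g
      · have e2 : (fun x : K i × Bool => if dig (i + 1) l x then g else (1 : G)) =
            fun x => if dig i l x.1 then g else 1 := by
          funext x
          rw [dig_succ, if_neg hli]
        rw [e2]
        exact hψ.low l (by omega) g
    · intro g
      rw [← hφ.top]
      exact h2 g

end

end Pool.Agent.H72.DEF
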