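import Mathlib

/-!
Sections of central extensions of perfect groups with trivial second homology.
-/

set_option autoImplicit false

open scoped commutatorElement

namespace Pool.Agent.H72.DEF

/-- every surjection onto `T` with central kernel has a section which is a homomorphism. -/
def Sec (T : Type) [Group T] : Prop :=
  ∀ (W : Type) [Group W] (f : W →* T), Function.Surjective f → f.ker ≤ Subgroup.center W →
    ∃ s : T →* W, ∀ t, f (s t) = t

/-- a homomorphism from a perfect group with commuting values is trivial. -/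
theorem perfect_kill {G W : Type*} [Group G] [Group W] (hG : commutator G = ⊤) (u : G →* W)
    (h : ∀ x y, Commute (u x) (u y)) (g : G) : u g = 1 := by
  have h1 : commutator G ≤ u.ker := by
    rw [commutator_def, Subgroup.commutator_le]
    intro x _ y _
    rw [MonoidHom.mem_ker, map_commutatorElement, commutatorElement_eq_one_iff_commute]
    exact h x y
  rw [hG] at h1
  exact h1 (Subgroup.mem_top g)

/-- version with a function which is multiplicative. -/
theorem perfect_kill' {G W : Type*} [Group G] [Group W] (hG : commutator G = ⊤) (u : G → W)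
    (hm : ∀ x y, u (x * y) = u x * u y) (h : ∀ x y, Commute (u x) (u y)) (g : G) : u g = 1 :=
  perfect_kill hG (MonoidHom.mk' u hm) h g

/-- a subgroup which contains all commutators is everything. -/
theorem perfect_ind {G : Type*} [Group G] (hG : commutator G = ⊤) (H : Subgroup G)
    (h : ∀ x y : G, ⁅x, y⁆ ∈ H) (g : G) : g ∈ H := by
  have h1 : commutator G ≤ H := by
    rw [commutator_def, Subgroup.commutator_le]
    intro x _ y _
    exact h x y
  rw [hG] at h1
  exact h1 (Subgroup.mem_top g)

section H2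

open CategoryTheory groupHomology

variable {G : Type} [Group G]

/-- 2-cycles are 2-boundaries if `H₂ = 0`. -/
theorem cyc_bdy (h2 : CategoryTheory.Limits.IsZero (groupHomology (Rep.trivial ℤ G ℤ) 2))
    (x : cycles₂ (Rep.trivial ℤ G ℤ)) : x.1 ∈ boundaries₂ (Rep.trivial ℤ G ℤ) := by
  have h := H2π_eq_zero_iff (A := Rep.trivial ℤ G ℤ) x
  rw [← h]
  have hs : Subsingleton (groupHomology.H2 (Rep.trivial ℤ G ℤ)) :=
    ModuleCat.subsingleton_of_isZero h2
  exact Subsingleton.elim _ _

/-- the trivial representation. -/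
noncomputable abbrev Tr (G : Type) [Group G] : Rep ℤ G := Rep.trivial ℤ G ℤ

theorem d21_one (g h : G) (a : ℤ) :
    (d₂₁ (Tr G)).hom (Finsupp.single (g, h) a) =
      Finsupp.single h a - Finsupp.single (g * h) a + Finsupp.single g a := by
  have := d₂₁_single (A := Tr G) (g, h) a
  simpa using this

theorem d32_one (g h k : G) (a : ℤ) :
    (d₃₂ (Tr G)).hom (Finsupp.single (g, h, k) a) =
      Finsupp.single (h, k) a - Finsupp.single (g * h, k) a + Finsupp.single (g, h * k) a -
        Finsupp.single (g, h) a := by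
  have := d₃₂_single (A := Tr G) (g, h, k) a
  simpa using this

/-- surjectivity of the second differential for perfect groups. -/
theorem d21_surj (hG : commutator G = ⊤) (g : G) :
    (Finsupp.single g (1 : ℤ) : G →₀ ℤ) ∈ LinearMap.range (d₂₁ (Tr G)).hom := by
  set R : Submodule ℤ (G →₀ ℤ) := LinearMap.range (d₂₁ (Tr G)).hom with hR
  have key := perfect_kill' hG
    (fun x : G => Multiplicative.ofAdd (R.mkQ (Finsupp.single x (1 : ℤ)))) ?_
    (fun _ _ => Commute.all _ _) g
  · have h0 : R.mkQ (Finsupp.single g (1 : ℤ)) = 0 := key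
    rwa [Submodule.mkQ_apply, Submodule.Quotient.mk_eq_zero] at h0
  · intro x y
    rw [← ofAdd_add]
    congr 1
    rw [← map_add, Submodule.mkQ_apply, Submodule.mkQ_apply, eq_comm, Submodule.Quotient.eq]
    refine ⟨Finsupp.single (x, y) (1 : ℤ), ?_⟩
    rw [d21_one]
    abel

/-- a central 2-cocycle of a perfect group with trivial second homology is a coboundary. -/
theorem cobdy (hG : commutator G = ⊤)
    (h2 : CategoryTheory.Limits.IsZero (groupHomology (Rep.trivial ℤ G ℤ) 2))
    (Z : Type) [CommGroup Z] (c : G → G → Z)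
    (hc : ∀ g h k, c g h * c (g * h) k = c h k * c g (h * k)) :
    ∃ b : G → Z, ∀ g h, c g h = b g * b h * (b (g * h))⁻¹ := by
  classical
  set L : (G × G →₀ ℤ) →ₗ[ℤ] Additive Z :=
    Finsupp.lsum ℤ fun p => LinearMap.toSpanSingleton ℤ (Additive Z) (Additive.ofMul (c p.1 p.2))
    with hL
  have hLs : ∀ (g h : G) (a : ℤ), L (Finsupp.single (g, h) a) = a • Additive.ofMul (c g h) := by
    intro g h a
    rw [hL]
    simp
  have hkill : ∀ y : G × G × G →₀ ℤ, L ((d₃₂ (Tr G)).hom y) = 0 := by
    intro y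
    have : L ∘ₗ (d₃₂ (Tr G)).hom = 0 := by
      refine Finsupp.lhom_ext fun p a => ?_
      obtain ⟨g, h, k⟩ := p
      show L ((d₃₂ (Tr G)).hom (Finsupp.single (g, h, k) a)) = 0
      rw [d32_one, map_sub, map_add, map_sub, hLs, hLs, hLs, hLs, ← smul_sub, ← smul_add,
        ← smul_sub]
      have e : Additive.ofMul (c h k) - Additive.ofMul (c (g * h) k) +
          Additive.ofMul (c g (h * k)) - Additive.ofMul (c g h) = 0 := by
        have h1 := congrArg Additive.ofMul (hc g h k)
        rw [ofMul_mul, ofMul_mul] at h1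
        have h2 : Additive.ofMul (c h k) - Additive.ofMul (c (g * h) k) +
          Additive.ofMul (c g (h * k)) - Additive.ofMul (c g h) =
          (Additive.ofMul (c h k) + Additive.ofMul (c g (h * k))) -
            (Additive.ofMul (c g h) + Additive.ofMul (c (g * h) k)) := by abel
        rw [h2, h1, sub_self]
      rw [e, smul_zero]
    exact LinearMap.congr_fun this y
  have hker : ∀ x : G × G →₀ ℤ, (d₂₁ (Tr G)).hom x = 0 → L x = 0 := by
    intro x hx
    obtain ⟨y, hy⟩ := cyc_bdy h2 ⟨x, hx⟩
    have := hkill y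
    rw [hy] at this
    exact this
  choose x hx using fun g : G => d21_surj hG g
  refine ⟨fun g => (L (x g)).toMul, fun g h => ?_⟩
  have h0 : (d₂₁ (Tr G)).hom (Finsupp.single (g, h) (1 : ℤ) - (x h - x (g * h) + x g)) = 0 := by
    rw [map_sub, d21_one, map_add, map_sub, hx, hx, hx, sub_self]
  have h1 := hker _ h0
  rw [map_sub, hLs, one_smul, map_add, map_sub, sub_eq_zero] at h1
  have h2 := congrArg Additive.toMul h1
  rw [toMul_ofMul] at h2
  rw [h2, toMul_add, toMul_sub, div_eq_mul_inv]
  rw [mul_comm ((L (x g)).toMul) ((L (x h)).toMul)]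
  rw [mul_assoc, mul_comm _ ((L (x g)).toMul), ← mul_assoc]

open scoped IsMulCommutative in
/-- `G` has sections. -/
theorem sec_of_H2 (hG : commutator G = ⊤)
    (h2 : CategoryTheory.Limits.IsZero (groupHomology (Rep.trivial ℤ G ℤ) 2)) : Sec G := by
  intro W _ f hf hker
  set σ : G → W := Function.surjInv hf with hσ
  have hfσ : ∀ g, f (σ g) = g := Function.surjInv_eq hf
  have hmem : ∀ g h : G, σ g * σ h * (σ (g * h))⁻¹ ∈ Subgroup.center W := by
    intro g h
    apply hker
    rw [MonoidHom.mem_ker, map_mul, map_mul, map_inv, hfσ, hfσ, hfσ, mul_inv_cancel]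
  set c : G → G → Subgroup.center W := fun g h => ⟨σ g * σ h * (σ (g * h))⁻¹, hmem g h⟩ with hc
  have hcomm : ∀ (z : Subgroup.center W) (w : W), (z : W) * w = w * z := fun z w =>
    (Subgroup.mem_center_iff.1 z.2 w).symm
  obtain ⟨b, hb⟩ := cobdy hG h2 (Subgroup.center W) c (by
    intro g h k
    apply Subtype.ext
    show σ g * σ h * (σ (g * h))⁻¹ * (σ (g * h) * σ k * (σ (g * h * k))⁻¹) =
      σ h * σ k * (σ (h * k))⁻¹ * (σ g * σ (h * k) * (σ (g * (h * k)))⁻¹)
    have e := hcomm (c h k) (σ g)
    have e' : σ h * σ k * (σ (h * k))⁻¹ * σ g = σ g * (σ h * σ k * (σ (h * k))⁻¹) := e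
    rw [mul_assoc g h k]
    calc _ = σ g * (σ h * σ k * (σ (h * k))⁻¹) * σ (h * k) * (σ (g * (h * k)))⁻¹ := by group
      _ = _ := by rw [← e']; group)
  have hb' : ∀ g h, σ g * σ h = (b g : W) * b h * (b (g * h) : W)⁻¹ * σ (g * h) := by
    intro g h
    have := congrArg Subtype.val (hb g h)
    have e : σ g * σ h * (σ (g * h))⁻¹ = (b g : W) * b h * (b (g * h) : W)⁻¹ := this
    rw [← e]
    group
  set s : G →* W := MonoidHom.mk' (fun g => σ g * ((b g : W))⁻¹) (by
    intro g h
    have i1 : ∀ (z : Subgroup.center W) (w : W), ((z : W))⁻¹ * w = w * (z : W)⁻¹ := by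
      intro z w
      exact hcomm z⁻¹ w
    calc σ (g * h) * ((b (g * h) : W))⁻¹ = ((b (g * h) : W))⁻¹ * σ (g * h) := (i1 _ _).symm
      _ = ((b h : W))⁻¹ * ((b g : W))⁻¹ * ((b g : W) * b h * (b (g * h) : W)⁻¹ * σ (g * h)) := by
          group
      _ = ((b h : W))⁻¹ * ((b g : W))⁻¹ * (σ g * σ h) := by rw [← hb']
      _ = ((b h : W))⁻¹ * (σ g * ((b g : W))⁻¹ * σ h) := by
          rw [← i1 (b g) (σ g)]
          group
      _ = σ g * ((b g : W))⁻¹ * (σ h * ((b h : W))⁻¹) := by
          rw [i1, mul_assoc]) with hs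
  refine ⟨s, fun t => ?_⟩
  -- `f ∘ s` differs from the identity by a homomorphism to the centre
  have hfc : ∀ (z : Subgroup.center W) (g : G), f z * g = g * f z := by
    intro z g
    obtain ⟨w, rfl⟩ := hf g
    rw [← map_mul, ← map_mul, hcomm]
  have hfs : ∀ g, f (s g) = g * (f (b g))⁻¹ := by
    intro g
    show f (σ g * ((b g : W))⁻¹) = _
    rw [map_mul, map_inv, hfσ]
  have hfc' : ∀ (z : Subgroup.center W) (g : G), (f z)⁻¹ * g = g * (f z)⁻¹ := by
    intro z g
    have := hfc z⁻¹ g
    simpa using this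
  have hm : ∀ g h, (f (b (g * h)))⁻¹ = (f (b g))⁻¹ * (f (b h))⁻¹ := by
    intro g h
    have e1 : f (s (g * h)) = f (s g) * f (s h) := by rw [map_mul, map_mul]
    rw [hfs, hfs, hfs] at e1
    have e2 : g * (f (b g))⁻¹ * (h * (f (b h))⁻¹) = g * h * ((f (b g))⁻¹ * (f (b h))⁻¹) := by
      rw [mul_assoc g, ← mul_assoc (f (b g))⁻¹ h, hfc']
      group
    rw [e2] at e1
    exact mul_left_cancel e1
  have := perfect_kill' hG (fun g => (f (b g))⁻¹) hm (fun x y => (hfc' (b x) _)) t
  rw [hfs]
  have h1 : (f (b t))⁻¹ = 1 := this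
  rw [h1, mul_one]

end H2

/-- if all commutators with `w` are central and `u` is a homomorphism from a perfect group, then `u` commutes with `w`. -/
theorem perfect_commute {G W : Type*} [Group G] [Group W] (hG : commutator G = ⊤) (u : G →* W)
    (w : W) (h : ∀ g x, Commute ⁅u g, w⁆ x) (g : G) : Commute (u g) w := by
  rw [← commutatorElement_eq_one_iff_commute]
  refine perfect_kill' hG (fun g => ⁅u g, w⁆) ?_ (fun x y => h x _) g
  intro x y
  have e : ⁅u (x * y), w⁆ = u x * ⁅u y, w⁆ * (u x)⁻¹ * ⁅u x, w⁆ := by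
    rw [map_mul, commutatorElement_def, commutatorElement_def, commutatorElement_def]
    group
  have h1 : u x * ⁅u y, w⁆ * (u x)⁻¹ = ⁅u y, w⁆ := by
    rw [← (h y (u x)).eq, mul_inv_cancel_right]
  show ⁅u (x * y), w⁆ = ⁅u x, w⁆ * ⁅u y, w⁆
  rw [e, h1, (h y ⁅u x, w⁆).eq]

/-- finite powers have sections. -/
theorem sec_pi {G : Type} [Group G] {ι : Type} [Finite ι] (hG : commutator G = ⊤) (hS : Sec G) :
    Sec (ι → G) := by
  classical
  have := Fintype.ofFinite ι
  intro W _ f hf hker
  set Wy : ι → Subgroup W := fun y =>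
    { carrier := {w | ∀ x, x ≠ y → f w x = 1}
      mul_mem' := by
        intro a b ha hb x hx
        rw [map_mul, Pi.mul_apply, ha x hx, hb x hx, one_mul]
      one_mem' := by
        intro x _
        rw [map_one, Pi.one_apply]
      inv_mem' := by
        intro a ha x hx
        rw [map_inv, Pi.inv_apply, ha x hx, inv_one] } with hWy
  have hsec : ∀ y : ι, ∃ t : G →* W, ∀ g, f (t g) = Pi.mulSingle y g := by
    intro y
    set fy : Wy y →* G := (Pi.evalMonoidHom (fun _ : ι => G) y).comp (f.comp (Wy y).subtype)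
      with hfy
    have hmem : ∀ w : Wy y, f (w : W) = Pi.mulSingle y (f (w : W) y) := by
      intro w
      funext x
      by_cases hx : x = y
      · subst hx
        rw [Pi.mulSingle_eq_same]
      · rw [Pi.mulSingle_eq_of_ne hx]
        exact w.2 x hx
    obtain ⟨s, hs⟩ := hS (Wy y) fy (by
      intro g
      obtain ⟨w, hw⟩ := hf (Pi.mulSingle y g)
      refine ⟨⟨w, ?_⟩, ?_⟩
      · intro x hx
        rw [hw, Pi.mulSingle_eq_of_ne hx]
      · show f w y = g
        rw [hw, Pi.mulSingle_eq_same]) (by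
      intro w hw
      have h1 : f (w : W) y = 1 := hw
      have h2 : (w : W) ∈ f.ker := by
        rw [MonoidHom.mem_ker, hmem w, h1, Pi.mulSingle_one]
      have h3 := Subgroup.mem_center_iff.1 (hker h2)
      rw [Subgroup.mem_center_iff]
      intro v
      exact Subtype.ext (h3 v))
    refine ⟨(Wy y).subtype.comp s, fun g => ?_⟩
    have h1 := hmem (s g)
    have h2 : f (s g : W) y = g := hs g
    rw [h2] at h1
    exact h1
  choose t ht using hsec
  have hcomm : Pairwise fun i j => ∀ x y, Commute (t i x) (t j y) := by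
    intro i j hij x y
    refine perfect_commute hG (t i) (t j y) ?_ x
    intro g w
    have h1 : ⁅t i g, t j y⁆ ∈ f.ker := by
      rw [MonoidHom.mem_ker, map_commutatorElement, ht, ht,
        commutatorElement_eq_one_iff_commute]
      exact Pi.mulSingle_commute (f := fun _ : ι => G) hij g y
    exact (Subgroup.mem_center_iff.1 (hker h1) w).symm
  refine ⟨MonoidHom.noncommPiCoprod t hcomm, fun x => ?_⟩
  have : f.comp (MonoidHom.noncommPiCoprod t hcomm) = MonoidHom.id (ι → G) := by
    refine MonoidHom.pi_ext fun i x => ?_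
    rw [MonoidHom.comp_apply, MonoidHom.noncommPiCoprod_mulSingle, ht, MonoidHom.id_apply]
  exact DFunLike.congr_fun this x

/-- the normal closure of the diagonal is everything. -/
theorem normalClosure_const {G : Type} [Group G] {ι : Type} [Finite ι] (hG : commutator G = ⊤) :
    Subgroup.normalClosure (Set.range (fun (g : G) (_ : ι) => g)) = ⊤ := by
  classical
  rw [eq_top_iff]
  intro x _
  refine Subgroup.pi_mem_of_mulSingle_mem x fun i => ?_
  set N := Subgroup.normalClosure (Set.range (fun (g : G) (_ : ι) => g)) with hN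
  refine perfect_ind hG (N.comap (MonoidHom.mulSingle (fun _ : ι => G) i)) ?_ (x i)
  intro g h
  rw [Subgroup.mem_comap]
  have h1 : (fun _ : ι => g) ∈ N := Subgroup.subset_normalClosure ⟨g, rfl⟩
  have h2 : MonoidHom.mulSingle (fun _ : ι => G) i ⁅g, h⁆ =
      (fun _ : ι => g) * ((Pi.mulSingle i h : ι → G) * (fun _ : ι => g)⁻¹ *
        (Pi.mulSingle i h : ι → G)⁻¹) := by
    funext j
    show (Pi.mulSingle i ⁅g, h⁆ : ι → G) j = g * ((Pi.mulSingle i h : ι → G) j * g⁻¹ *
        ((Pi.mulSingle i h : ι → G) j)⁻¹)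
    by_cases hj : j = i
    · subst hj
      rw [Pi.mulSingle_eq_same, Pi.mulSingle_eq_same, commutatorElement_def]
      group
    · rw [Pi.mulSingle_eq_of_ne hj, Pi.mulSingle_eq_of_ne hj]
      group
  rw [h2]
  exact N.mul_mem h1 (Subgroup.normalClosure_normal.conj_mem _ (N.inv_mem h1) _)

end Pool.Agent.H72.DEF
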