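import Pool.Agent.H72.DEF.Loc

/-!
The step: two homomorphisms of `κ × Bool → G` which agree on the functions of the first coordinate are combined to one
homomorphism of `(κ × Bool) × Bool → G`.
-/

set_option autoImplicit false

open scoped commutatorElement

namespace Pool.Agent.H72.DEF

/-- variant of `perfect_commute`. -/
theorem perfect_commute' {G W : Type*} [Group G] [Group W] (hG : commutator G = ⊤) (u : G →* W)
    (w : W) (h1 : ∀ g x, Commute ⁅u g, w⁆ (u x)) (h2 : ∀ g, Commute ⁅u g, w⁆ w) (g : G) :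
    Commute (u g) w := by
  rw [← commutatorElement_eq_one_iff_commute]
  have h3 : ∀ x y, Commute ⁅u x, w⁆ ⁅u y, w⁆ := by
    intro x y
    rw [commutatorElement_def (u y) w]
    exact (((h1 x y).mul_right (h2 x)).mul_right (h1 x y).inv_right).mul_right (h2 x).inv_right
  refine perfect_kill' hG (fun g => ⁅u g, w⁆) ?_ h3 g
  intro x y
  have e : ⁅u (x * y), w⁆ = u x * ⁅u y, w⁆ * (u x)⁻¹ * ⁅u x, w⁆ := by
    rw [map_mul, commutatorElement_def, commutatorElement_def, commutatorElement_def]
    group
  have h4 : u x * ⁅u y, w⁆ * (u x)⁻¹ = ⁅u y, w⁆ := by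
    rw [← (h1 y x).eq, mul_inv_cancel_right]
  show ⁅u (x * y), w⁆ = ⁅u x, w⁆ * ⁅u y, w⁆
  rw [e, h4, (h3 y x).eq]

theorem commute_closure {E : Type} [Group E] (S S' : Set E) (h : ∀ x ∈ S, ∀ y ∈ S', Commute x y)
    (x y : E) (hx : x ∈ Subgroup.closure S) (hy : y ∈ Subgroup.closure S') : Commute x y := by
  have h1 : Subgroup.closure S' ≤ Subgroup.centralizer S := by
    rw [Subgroup.closure_le]
    intro z hz
    rw [SetLike.mem_coe, Subgroup.mem_centralizer_iff]
    intro w hw
    exact (h w hw z hz).eq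
  have h2 := h1 hy
  rw [← Subgroup.centralizer_closure, Subgroup.mem_centralizer_iff] at h2
  exact h2 x hx

section

variable {G E κ : Type} [Group G] [Group E] [Finite κ] [DecidableEq κ]

/-- restriction of a function to the pairs with first coordinate different from `a`. -/
def offA (a : κ) : (κ × Bool → G) →* (κ × Bool → G) :=
  MonoidHom.mk' (fun x y => if y.1 = a then 1 else x y) (by
    intro x x'
    funext y
    show (if y.1 = a then 1 else (x * x') y) = (if y.1 = a then 1 else x y) *
      (if y.1 = a then 1 else x' y)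
    split_ifs
    · rw [mul_one]
    · rfl)

omit [Finite κ] in
theorem offA_apply (a : κ) (x : κ × Bool → G) (y : κ × Bool) :
    offA a x y = if y.1 = a then 1 else x y := rfl

omit [Finite κ] in
/-- splitting of a function at `a`. -/
theorem split_offA (a : κ) (x : κ × Bool → G) :
    x = Pi.mulSingle (a, true) (x (a, true)) * Pi.mulSingle (a, false) (x (a, false)) *
      offA a x := by
  funext y
  obtain ⟨b, c⟩ := y
  rw [Pi.mul_apply, Pi.mul_apply, offA_apply]
  by_cases hb : b = a
  · subst hb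
    cases c
    · rw [if_pos rfl, Pi.mulSingle_eq_same, Pi.mulSingle_eq_of_ne (by simp), one_mul, mul_one]
    · rw [if_pos rfl, Pi.mulSingle_eq_same, Pi.mulSingle_eq_of_ne (by simp), mul_one, mul_one]
  · rw [if_neg hb, Pi.mulSingle_eq_of_ne (by simp [hb]), Pi.mulSingle_eq_of_ne (by simp [hb]),
      one_mul, one_mul]

omit [Finite κ] in
theorem ms_commute (a b : κ) (c d : Bool) (g h : G) (hab : a ≠ b) :
    Commute (Pi.mulSingle (a, c) g : κ × Bool → G) (Pi.mulSingle (b, d) h) :=
  Pi.mulSingle_commute (f := fun _ : κ × Bool => G) (by simp [hab]) g h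

omit [Finite κ] in
theorem ms_fst (a : κ) (s : G) :
    (fun y : κ × Bool => (Pi.mulSingle a s : κ → G) y.1) =
      Pi.mulSingle (a, true) s * Pi.mulSingle (a, false) s := by
  funext y
  obtain ⟨b, c⟩ := y
  rw [Pi.mul_apply]
  by_cases hb : b = a
  · subst hb
    cases c
    · rw [Pi.mulSingle_eq_same, Pi.mulSingle_eq_same, Pi.mulSingle_eq_of_ne (by simp), one_mul]
    · rw [Pi.mulSingle_eq_same, Pi.mulSingle_eq_same, Pi.mulSingle_eq_of_ne (by simp), mul_one]
  · rw [Pi.mulSingle_eq_of_ne (show b ≠ a from hb),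
      Pi.mulSingle_eq_of_ne (show ((b, c) : κ × Bool) ≠ (a, true) by simp [hb]),
      Pi.mulSingle_eq_of_ne (show ((b, c) : κ × Bool) ≠ (a, false) by simp [hb]), one_mul]

/-- the hypotheses of the step. -/
structure StepHyp (ψ φ : (κ × Bool → G) →* E) : Prop where
  agree : ∀ f : κ → G, ψ (fun y => f y.1) = φ (fun y => f y.1)
  loc : ∀ a b g h, a ≠ b → Commute (φ (Pi.mulSingle (a, true) g)) (ψ (Pi.mulSingle (b, true) h))
  cross : ∀ g h s, Commute (φ (fun y => if y.2 then g else 1))
    ((ψ (fun y => if y.2 then s else 1))⁻¹ * φ (fun y => if y.2 then 1 else h) *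
      ψ (fun y => if y.2 then s else 1))

variable {ψ φ : (κ × Bool → G) →* E}

/-- the local generators. -/
def gen (ψ φ : (κ × Bool → G) →* E) (a : κ) : Set E :=
  {x | ∃ c g, x = ψ (Pi.mulSingle (a, c) g) ∨ x = φ (Pi.mulSingle (a, c) g)}

omit [Finite κ] in
theorem StepHyp.delta (h : StepHyp ψ φ) (a : κ) (s : G) :
    ψ (Pi.mulSingle (a, true) s) * ψ (Pi.mulSingle (a, false) s) =
      φ (Pi.mulSingle (a, true) s) * φ (Pi.mulSingle (a, false) s) := by
  have := h.agree (Pi.mulSingle a s)
  rw [ms_fst, map_mul, map_mul] at this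
  exact this

theorem StepHyp.loc' (h : StepHyp ψ φ) (a b : κ) (c d : Bool) (g k : G) (hab : a ≠ b) :
    Commute (φ (Pi.mulSingle (a, c) g)) (ψ (Pi.mulSingle (b, d) k)) := by
  -- first: `φ (a, c)` commutes with `ψ (b, true)`
  have h1 : ∀ c g k, Commute (φ (Pi.mulSingle (a, c) g)) (ψ (Pi.mulSingle (b, true) k)) := by
    intro c g k
    cases c
    · have e1 : φ (Pi.mulSingle (a, false) g) = (φ (Pi.mulSingle (a, true) g))⁻¹ *
          (ψ (Pi.mulSingle (a, true) g) * ψ (Pi.mulSingle (a, false) g)) := by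
        rw [h.delta, inv_mul_cancel_left]
      rw [e1]
      refine (h.loc a b g k hab).inv_left.mul_left (Commute.mul_left ?_ ?_)
      · exact (ms_commute a b true true g k hab).map ψ
      · exact (ms_commute a b false true g k hab).map ψ
    · exact h.loc a b g k hab
  cases d
  · have e1 : ψ (Pi.mulSingle (b, false) k) = (ψ (Pi.mulSingle (b, true) k))⁻¹ *
        (φ (Pi.mulSingle (b, true) k) * φ (Pi.mulSingle (b, false) k)) := by
      rw [← h.delta, inv_mul_cancel_left]
    rw [e1]
    refine (h1 c g k).inv_right.mul_right (Commute.mul_right ?_ ?_)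
    · exact (ms_commute a b c true g k hab).map φ
    · exact (ms_commute a b c false g k hab).map φ
  · exact h1 c g k

theorem StepHyp.gen_commute (h : StepHyp ψ φ) (a b : κ) (hab : a ≠ b) (x y : E)
    (hx : x ∈ Subgroup.closure (gen ψ φ a)) (hy : y ∈ Subgroup.closure (gen ψ φ b)) :
    Commute x y := by
  refine commute_closure _ _ ?_ x y hx hy
  rintro x ⟨c, g, (rfl | rfl)⟩ y ⟨d, k, (rfl | rfl)⟩
  · exact (ms_commute a b c d g k hab).map ψ
  · exact (h.loc' b a d c k g (Ne.symm hab)).symm
  · exact h.loc' a b c d g k hab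
  · exact (ms_commute a b c d g k hab).map φ

/-- elements which are trivial at `a` centralise the local group at `a`. -/
theorem StepHyp.off_commute (h : StepHyp ψ φ) (a : κ) (x : κ × Bool → G) (z : E)
    (hz : z ∈ Subgroup.closure (gen ψ φ a)) :
    Commute z (ψ (offA a x)) ∧ Commute z (φ (offA a x)) := by
  have key : ∀ θ : (κ × Bool → G) →* E, (∀ (b : κ) (c : Bool) (g : G),
      θ (Pi.mulSingle (b, c) g) ∈ Subgroup.closure (gen ψ φ b)) →
        Commute z (θ (offA a x)) := by
    intro θ hθ
    have h1 : x ∈ (Subgroup.centralizer {z}).comap (θ.comp (offA a)) := by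
      refine Subgroup.pi_mem_of_mulSingle_mem x fun i => ?_
      obtain ⟨b, c⟩ := i
      rw [Subgroup.mem_comap, Subgroup.mem_centralizer_iff]
      intro z' hz'
      rw [Set.mem_singleton_iff] at hz'
      rw [hz', MonoidHom.comp_apply]
      by_cases hb : b = a
      · subst hb
        have e : offA b (Pi.mulSingle (b, c) (x (b, c)) : κ × Bool → G) = 1 := by
          funext y
          rw [offA_apply]
          split_ifs with hy
          · rfl
          · exact Pi.mulSingle_eq_of_ne (by rintro rfl; exact hy rfl) _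
        rw [e, map_one, mul_one, one_mul]
      · have e : offA a (Pi.mulSingle (b, c) (x (b, c)) : κ × Bool → G) =
            Pi.mulSingle (b, c) (x (b, c)) := by
          funext y
          rw [offA_apply]
          split_ifs with hy
          · have hne : y ≠ (b, c) := by
              rintro rfl
              exact hb hy
            exact (Pi.mulSingle_eq_of_ne (M := fun _ : κ × Bool => G) hne _).symm
          · rfl
        rw [e]
        exact h.gen_commute a b (Ne.symm hb) z _ hz (hθ b c _)
    rw [Subgroup.mem_comap, Subgroup.mem_centralizer_iff] at h1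
    exact h1 z rfl
  refine ⟨key ψ fun b c g => Subgroup.subset_closure ⟨c, g, Or.inl rfl⟩,
    key φ fun b c g => Subgroup.subset_closure ⟨c, g, Or.inr rfl⟩⟩

/-- the relation within a block. -/
theorem StepHyp.within (hG : commutator G = ⊤) (h : StepHyp ψ φ) (a : κ) (g k s : G) :
    Commute (φ (Pi.mulSingle (a, true) g))
      ((ψ (Pi.mulSingle (a, true) s))⁻¹ * φ (Pi.mulSingle (a, false) k) *
        ψ (Pi.mulSingle (a, true) s)) := by
  set Λ := Subgroup.closure (gen ψ φ a) with hΛ
  have hψm : ∀ c g, ψ (Pi.mulSingle (a, c) g) ∈ Λ := fun c g =>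
    Subgroup.subset_closure ⟨c, g, Or.inl rfl⟩
  have hφm : ∀ c g, φ (Pi.mulSingle (a, c) g) ∈ Λ := fun c g =>
    Subgroup.subset_closure ⟨c, g, Or.inr rfl⟩
  set w := (ψ (Pi.mulSingle (a, true) s))⁻¹ * φ (Pi.mulSingle (a, false) k) *
        ψ (Pi.mulSingle (a, true) s) with hw
  have hwm : w ∈ Λ := Λ.mul_mem (Λ.mul_mem (Λ.inv_mem (hψm _ _)) (hφm _ _)) (hψm _ _)
  -- the other factors
  set xs : κ × Bool → G := fun y => if y.2 then s else 1 with hxs
  set xk : κ × Bool → G := fun y => if y.2 then 1 else k with hxk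
  have e1 : ψ xs = ψ (Pi.mulSingle (a, true) s) * ψ (offA a xs) := by
    conv_lhs => rw [split_offA a xs]
    rw [map_mul, map_mul]
    have i1 : xs (a, true) = s := by simp [hxs]
    have i2 : xs (a, false) = 1 := by simp [hxs]
    rw [i1, i2, Pi.mulSingle_one, map_one, mul_one]
  have e2 : φ xk = φ (Pi.mulSingle (a, false) k) * φ (offA a xk) := by
    conv_lhs => rw [split_offA a xk]
    rw [map_mul, map_mul]
    have i1 : xk (a, true) = 1 := by simp [hxk]
    have i2 : xk (a, false) = k := by simp [hxk]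
    rw [i1, i2, Pi.mulSingle_one, map_one, one_mul]
  set c' := (ψ (offA a xs))⁻¹ * φ (offA a xk) * ψ (offA a xs) with hc'
  have hcc : ∀ z ∈ Λ, Commute z c' := by
    intro z hz
    obtain ⟨h1, _⟩ := h.off_commute a xs z hz
    obtain ⟨_, h2⟩ := h.off_commute a xk z hz
    exact (h1.inv_right.mul_right h2).mul_right h1
  have e3 : (ψ xs)⁻¹ * φ xk * ψ xs = w * c' := by
    have k1 := (h.off_commute a xs _ (hψm true s)).1
    have k3 := (h.off_commute a xs _ (hφm false k)).1
    have k2 := (h.off_commute a xk _ (hψm true s)).2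
    rw [e1, e2, hw, hc']
    set A1 := ψ (Pi.mulSingle (a, true) s)
    set A2 := ψ (offA a xs)
    set B1 := φ (Pi.mulSingle (a, false) k)
    set B2 := φ (offA a xk)
    calc (A1 * A2)⁻¹ * (B1 * B2) * (A1 * A2)
        = A2⁻¹ * A1⁻¹ * B1 * (B2 * A1) * A2 := by group
      _ = A2⁻¹ * A1⁻¹ * B1 * (A1 * B2) * A2 := by rw [k2.eq]
      _ = (A2⁻¹ * (A1⁻¹ * B1 * A1)) * B2 * A2 := by group
      _ = ((A1⁻¹ * B1 * A1) * A2⁻¹) * B2 * A2 := by
          rw [(((k1.symm.inv_right.mul_right k3.symm).mul_right k1.symm).inv_left).eq]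
      _ = _ := by group
  have hfor : ∀ g, ⁅φ (Pi.mulSingle (a, true) g), w⁆ =
      ⁅φ (offA a (fun y => if y.2 then g else 1)), c'⁆⁻¹ := by
    intro g
    set xg : κ × Bool → G := fun y => if y.2 then g else 1 with hxg
    have e4 : φ xg = φ (Pi.mulSingle (a, true) g) * φ (offA a xg) := by
      conv_lhs => rw [split_offA a xg]
      rw [map_mul, map_mul]
      have i1 : xg (a, true) = g := by simp [hxg]
      have i2 : xg (a, false) = 1 := by simp [hxg]
      rw [i1, i2, Pi.mulSingle_one, map_one, mul_one]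
    have e5 : Commute (φ xg) ((ψ xs)⁻¹ * φ xk * ψ xs) := h.cross g k s
    rw [e3, e4] at e5
    have k1 := (h.off_commute a xg _ hwm).2
    have k2 := hcc _ (hφm true g)
    have k3 := (h.off_commute a xg _ (hφm true g)).2
    have k4 := hcc _ hwm
    set p := φ (Pi.mulSingle (a, true) g)
    set p' := φ (offA a xg)
    have e6 := commutatorElement_eq_one_iff_commute.2 e5
    have e7 : ⁅p * p', w * c'⁆ = ⁅p, w⁆ * ⁅p', c'⁆ := by
      rw [commutatorElement_def, commutatorElement_def, commutatorElement_def]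
      calc p * p' * (w * c') * (p * p')⁻¹ * (w * c')⁻¹
          = p * (p' * w) * c' * p'⁻¹ * p⁻¹ * c'⁻¹ * w⁻¹ := by group
        _ = p * (w * p') * c' * p'⁻¹ * (p⁻¹ * c'⁻¹) * w⁻¹ := by rw [← k1.eq]; group
        _ = p * w * p' * c' * (p'⁻¹ * c'⁻¹ * p⁻¹) * w⁻¹ := by
            rw [(k2.inv_inv).eq]; group
        _ = p * w * (p' * c' * p'⁻¹ * c'⁻¹ * (p⁻¹ * w⁻¹)) := by group
        _ = p * w * ((p⁻¹ * w⁻¹) * (p' * c' * p'⁻¹ * c'⁻¹)) := by
            have k5 : Commute (p⁻¹ * w⁻¹) (p' * c' * p'⁻¹ * c'⁻¹) := by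
              have l1 : Commute p (p' * c' * p'⁻¹ * c'⁻¹) :=
                ((k3.mul_right k2).mul_right k3.inv_right).mul_right k2.inv_right
              have l2 : Commute w (p' * c' * p'⁻¹ * c'⁻¹) :=
                ((k1.mul_right k4).mul_right k1.inv_right).mul_right k4.inv_right
              exact l1.inv_left.mul_left l2.inv_left
            rw [k5.eq]
        _ = _ := by group
    rw [e7] at e6
    exact eq_inv_of_mul_eq_one_left e6
  have hcent : ∀ g, ∀ z ∈ Λ, Commute ⁅φ (Pi.mulSingle (a, true) g), w⁆ z := by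
    intro g z hz
    rw [hfor g, commutatorElement_def]
    have l1 := (h.off_commute a (fun y => if y.2 then g else 1) z hz).2
    have l2 := hcc z hz
    exact ((((l1.mul_right l2).mul_right l1.inv_right).mul_right l2.inv_right).inv_right).symm
  exact perfect_commute' hG (φ.comp (MonoidHom.mulSingle (fun _ : κ × Bool => G) (a, true))) w
    (fun g x => hcent g _ (hφm true x)) (fun g => hcent g _ hwm) g

/-- all conjugates. -/
theorem StepHyp.all (hG : commutator G = ⊤) (h : StepHyp ψ φ) (g k : G) (t : κ × Bool → G) :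
    Commute (φ (fun y => if y.2 then g else 1))
      ((ψ t)⁻¹ * φ (fun y => if y.2 then 1 else k) * ψ t) := by
  set xk : κ × Bool → G := fun y => if y.2 then 1 else k with hxk
  set z := (ψ t)⁻¹ * φ xk * ψ t with hz
  -- it suffices to treat the pieces of the first element
  suffices hs : ∀ a g, Commute (φ (Pi.mulSingle (a, true) g)) z by
    have h1 : (fun y : κ × Bool => if y.2 then g else 1) ∈
        (Subgroup.centralizer {z}).comap φ := by
      refine Subgroup.pi_mem_of_mulSingle_mem _ fun i => ?_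
      obtain ⟨b, c⟩ := i
      rw [Subgroup.mem_comap, Subgroup.mem_centralizer_iff]
      rintro _ rfl
      cases c
      · have e : (if ((b, false) : κ × Bool).2 then g else 1) = 1 := by simp
        rw [e, Pi.mulSingle_one, map_one, mul_one, one_mul]
      · exact (hs b _).eq.symm
    rw [Subgroup.mem_comap, Subgroup.mem_centralizer_iff] at h1
    exact (h1 z rfl).symm
  intro a g
  set Λ := Subgroup.closure (gen ψ φ a) with hΛ
  have hψm : ∀ c g, ψ (Pi.mulSingle (a, c) g) ∈ Λ := fun c g =>
    Subgroup.subset_closure ⟨c, g, Or.inl rfl⟩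
  have hφm : ∀ c g, φ (Pi.mulSingle (a, c) g) ∈ Λ := fun c g =>
    Subgroup.subset_closure ⟨c, g, Or.inr rfl⟩
  have e2 : φ xk = φ (Pi.mulSingle (a, false) k) * φ (offA a xk) := by
    conv_lhs => rw [split_offA a xk]
    rw [map_mul, map_mul]
    have i1 : xk (a, true) = 1 := by simp [hxk]
    have i2 : xk (a, false) = k := by simp [hxk]
    rw [i1, i2, Pi.mulSingle_one, map_one, one_mul]
  set s1 := t (a, true) with hs1
  set s2 := t (a, false) with hs2
  have e1 : ψ t = ψ (Pi.mulSingle (a, true) (s1 * s2⁻¹)) *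
      (ψ (Pi.mulSingle (a, true) s2) * ψ (Pi.mulSingle (a, false) s2)) * ψ (offA a t) := by
    have e0 : ψ (Pi.mulSingle (a, true) s1) = ψ (Pi.mulSingle (a, true) (s1 * s2⁻¹)) *
        ψ (Pi.mulSingle (a, true) s2) := by
      rw [← map_mul ψ]
      congr 1
      funext y
      rw [Pi.mul_apply]
      by_cases hy : y = (a, true)
      · subst hy
        rw [Pi.mulSingle_eq_same, Pi.mulSingle_eq_same, Pi.mulSingle_eq_same,
          inv_mul_cancel_right]
      · rw [Pi.mulSingle_eq_of_ne hy, Pi.mulSingle_eq_of_ne hy, Pi.mulSingle_eq_of_ne hy, mul_one]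
    conv_lhs => rw [split_offA a t]
    rw [map_mul, map_mul, ← hs1, ← hs2, e0]
    group
  rw [h.delta] at e1
  set A := ψ (Pi.mulSingle (a, true) (s1 * s2⁻¹)) with hA
  set d := φ (Pi.mulSingle (a, true) s2) * φ (Pi.mulSingle (a, false) s2) with hd
  set A' := ψ (offA a t) with hA'
  set B := φ (Pi.mulSingle (a, false) k) with hB
  set B' := φ (offA a xk) with hB'
  have hAm : A ∈ Λ := hψm _ _
  have hdm : d ∈ Λ := Λ.mul_mem (hφm _ _) (hφm _ _)
  have hBm : B ∈ Λ := hφm _ _
  have k1 : ∀ z ∈ Λ, Commute z A' := fun z hz => (h.off_commute a t z hz).1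
  have k2 : ∀ z ∈ Λ, Commute z B' := fun z hz => (h.off_commute a xk z hz).2
  have e3 : z = (d⁻¹ * (A⁻¹ * B * A) * d) * (A'⁻¹ * B' * A') := by
    rw [hz, e1, e2]
    have l1 : Commute (d⁻¹ * A⁻¹ * B) A' :=
      ((k1 d hdm).inv_left.mul_left (k1 A hAm).inv_left).mul_left (k1 B hBm)
    have l2 : Commute (A * d) A' := (k1 A hAm).mul_left (k1 d hdm)
    have l3 : Commute (A * d) B' := (k2 A hAm).mul_left (k2 d hdm)
    calc (A * d * A')⁻¹ * (B * B') * (A * d * A')
        = (A'⁻¹ * (d⁻¹ * A⁻¹ * B)) * (B' * (A * d)) * A' := by group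
      _ = ((d⁻¹ * A⁻¹ * B) * A'⁻¹) * ((A * d) * B') * A' := by
          rw [l1.inv_right.eq, l3.eq]
      _ = (d⁻¹ * A⁻¹ * B) * (A'⁻¹ * (A * d)) * B' * A' := by group
      _ = (d⁻¹ * A⁻¹ * B) * ((A * d) * A'⁻¹) * B' * A' := by rw [l2.inv_right.eq]
      _ = _ := by group
  rw [e3]
  refine Commute.mul_right ?_ ((((k1 _ (hφm true g)).inv_right).mul_right
    (k2 _ (hφm true g))).mul_right (k1 _ (hφm true g)))
  -- conjugation by `d`
  have hcj : d * φ (Pi.mulSingle (a, true) g) * d⁻¹ =
      φ (Pi.mulSingle (a, true) (s2 * g * s2⁻¹)) := by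
    rw [hd, ← map_mul, ← map_mul, ← map_inv, ← map_mul]
    congr 1
    funext y
    simp only [Pi.mul_apply, Pi.inv_apply]
    by_cases hy : y = (a, true)
    · subst hy
      rw [Pi.mulSingle_eq_same, Pi.mulSingle_eq_same, Pi.mulSingle_eq_same,
        Pi.mulSingle_eq_of_ne (by simp), mul_one]
    · rw [Pi.mulSingle_eq_of_ne hy, Pi.mulSingle_eq_of_ne hy, Pi.mulSingle_eq_of_ne hy, mul_one,
        mul_inv_cancel]
  have hw := h.within hG a (s2 * g * s2⁻¹) k (s1 * s2⁻¹)
  rw [← hcj] at hw
  have hw2 : Commute (d * φ (Pi.mulSingle (a, true) g) * d⁻¹) (A⁻¹ * B * A) := hw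
  have e5 := hw2.eq
  set p := φ (Pi.mulSingle (a, true) g)
  set c := A⁻¹ * B * A
  show p * (d⁻¹ * c * d) = d⁻¹ * c * d * p
  calc p * (d⁻¹ * c * d) = d⁻¹ * (d * p * d⁻¹ * c) * d := by group
    _ = d⁻¹ * (c * (d * p * d⁻¹)) * d := by rw [e5]
    _ = _ := by group

/-- the step. -/
theorem step (hG : commutator G = ⊤) (hS : Sec G) (h : StepHyp ψ φ) :
    ∃ χ : ((κ × Bool) × Bool → G) →* E,
      (∀ f : κ × Bool → G, χ (fun y => f y.1) = ψ f) ∧
      (∀ g : G, χ (fun y => if y.2 then g else 1) = φ (fun y => if y.2 then g else 1)) := by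
  set P : G →* E := MonoidHom.mk' (fun g => φ (fun y => if y.2 then g else 1)) (by
    intro x y
    rw [← map_mul]
    congr 1
    funext z
    simp only [Pi.mul_apply]
    split_ifs
    · rfl
    · rw [mul_one]) with hP
  set Q : G →* E := MonoidHom.mk' (fun g => φ (fun y => if y.2 then 1 else g)) (by
    intro x y
    rw [← map_mul]
    congr 1
    funext z
    simp only [Pi.mul_apply]
    split_ifs
    · rw [mul_one]
    · rfl) with hQ
  set D : G →* (κ × Bool → G) := MonoidHom.mk' (fun g _ => g) (fun _ _ => rfl) with hD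
  obtain ⟨σ, σ', hσ, hσψ, hσP, -⟩ := doubling hG (sec_pi (ι := κ × Bool) hG hS) ψ D
    (normalClosure_const hG) P Q (by
      intro g
      have h1 := h.agree (fun _ => g)
      show ψ (fun _ => g) = φ (fun y => if y.2 then g else 1) * φ (fun y => if y.2 then 1 else g)
      rw [h1, ← map_mul]
      congr 1
      funext y
      simp only [Pi.mul_apply]
      split_ifs
      · rw [mul_one]
      · rw [one_mul]) (fun g k t => h.all hG g k t)
  refine ⟨MonoidHom.mk' (fun f => σ (fun x => f (x, true)) * σ' (fun x => f (x, false))) ?_,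
    ?_, ?_⟩
  · intro f f'
    have e1 : (fun x => (f * f') (x, true)) = (fun x => f (x, true)) * fun x => f' (x, true) := rfl
    have e2 : (fun x => (f * f') (x, false)) =
        (fun x => f (x, false)) * fun x => f' (x, false) := rfl
    rw [e1, e2, map_mul, map_mul]
    have h1 := (hσ (fun x => f' (x, true)) (fun x => f (x, false))).eq
    calc σ (fun x => f (x, true)) * σ (fun x => f' (x, true)) *
          (σ' (fun x => f (x, false)) * σ' (fun x => f' (x, false)))
        = σ (fun x => f (x, true)) * (σ (fun x => f' (x, true)) * σ' (fun x => f (x, false))) *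
          σ' (fun x => f' (x, false)) := by group
      _ = _ := by
        rw [h1]
        group
  · intro f
    exact hσψ f
  · intro g
    show σ (fun x => if true = true then g else 1) * σ' (fun x => if false = true then g else 1) =
      φ (fun y => if y.2 then g else 1)
    have e1 : (fun _ : κ × Bool => if true = true then g else 1) = D g := by
      funext x
      simp [hD]
    have e2 : (fun _ : κ × Bool => if false = true then g else 1) = 1 := by
      funext x
      simp
    rw [e1, e2, map_one, mul_one]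
    exact hσP g

end

end Pool.Agent.H72.DEF
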