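import Pool.Agent.H72.DEF.Step

/-!
Windows: homomorphisms from functions on `{0,1}^i × {0,1}` with prescribed values on the coordinate functions.
-/

set_option autoImplicit false

open scoped commutatorElement

namespace Pool.Agent.H72.DEF

/-- the set `{0,1}^i`. -/
def K : ℕ → Type
  | 0 => Unit
  | i + 1 => K i × Bool

instance instDecEqK : (i : ℕ) → DecidableEq (K i)
  | 0 => inferInstanceAs (DecidableEq Unit)
  | i + 1 => by
    haveI := instDecEqK i
    exact inferInstanceAs (DecidableEq (K i × Bool))

instance instFintypeK : (i : ℕ) → Fintype (K i)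
  | 0 => inferInstanceAs (Fintype Unit)
  | i + 1 => by
    haveI := instFintypeK i
    exact inferInstanceAs (Fintype (K i × Bool))

theorem card_K (i : ℕ) : Fintype.card (K i) = 2 ^ i := by
  induction i with
  | zero => rfl
  | succ i ih =>
    have : Fintype.card (K (i + 1)) = Fintype.card (K i × Bool) := rfl
    rw [this, Fintype.card_prod, ih, Fintype.card_bool, pow_succ]

/-- the digits. -/
def dig : (i : ℕ) → ℕ → K i → Bool
  | 0, _, _ => false
  | i + 1, l, x => if l = i then x.2 else dig i l x.1

theorem dig_succ (i l : ℕ) (x : K i × Bool) :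
    dig (i + 1) l x = if l = i then x.2 else dig i l x.1 := rfl

theorem dig_ge (i l : ℕ) (h : i ≤ l) (x : K i) : dig i l x = false := by
  induction i with
  | zero => rfl
  | succ i ih =>
    have e : dig (i + 1) l x = if l = i then x.2 else dig i l x.1 := rfl
    rw [e, if_neg (by omega), ih (by omega)]

/-- the element with given digits. -/
def mkK : (i : ℕ) → (ℕ → Bool) → K i
  | 0, _ => ()
  | i + 1, z => (mkK i z, z i)

theorem dig_mkK (i l : ℕ) (h : l < i) (z : ℕ → Bool) : dig i l (mkK i z) = z l := by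
  induction i with
  | zero => omega
  | succ i ih =>
    have e : dig (i + 1) l (mkK (i + 1) z) = if l = i then z i else dig i l (mkK i z) := rfl
    rw [e]
    split_ifs with h1
    · rw [h1]
    · exact ih (by omega)

theorem mkK_dig (i : ℕ) (x : K i) : mkK i (fun l => dig i l x) = x := by
  have key : ∀ (j : ℕ) (z z' : ℕ → Bool), (∀ l < j, z l = z' l) → mkK j z = mkK j z' := by
    intro j
    induction j with
    | zero => intro z z' _; rfl
    | succ j ih =>
      intro z z' h
      show (mkK j z, z j) = (mkK j z', z' j)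
      rw [ih z z' (fun l hl => h l (by omega)), h j (by omega)]
  induction i with
  | zero => rfl
  | succ i ih =>
    obtain ⟨y, b⟩ := x
    show (mkK i (fun l => dig (i + 1) l (y, b)), dig (i + 1) i (y, b)) = (y, b)
    have h1 : dig (i + 1) i ((y, b) : K i × Bool) = b := by rw [dig_succ, if_pos rfl]
    rw [h1, key i (fun l => dig (i + 1) l (y, b)) (fun l => dig i l y) (fun l hl => ?_), ih]
    show dig (i + 1) l ((y, b) : K i × Bool) = dig i l y
    rw [dig_succ, if_neg (by omega)]

section

variable {G : Type} [Group G]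

/-- windows. -/
structure IsWin {E : Type} [Group E] (e : Option ℕ → G → E) (i j : ℕ)
    (ψ : (K i × Bool → G) →* E) : Prop where
  const : ∀ g, ψ (fun _ => g) = e none g
  low : ∀ l < i, ∀ g, ψ (fun x => if dig i l x.1 then g else 1) = e (some l) g
  top : ∀ g, ψ (fun x => if x.2 then g else 1) = e (some j) g

/-- functions of the first coordinate and the indicator of the second one generate. -/
theorem gen_top {κ : Type} [Finite κ] [DecidableEq κ] (hG : commutator G = ⊤)
    (H : Subgroup (κ × Bool → G)) (h1 : ∀ f : κ → G, (fun x => f x.1) ∈ H)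
    (h2 : ∀ g : G, (fun x => if x.2 then g else 1) ∈ H) (t : κ × Bool → G) : t ∈ H := by
  have h3 : ∀ (a : κ) (g : G), (Pi.mulSingle (a, true) g : κ × Bool → G) ∈ H := by
    intro a g
    refine perfect_ind hG (H.comap (MonoidHom.mulSingle (fun _ : κ × Bool => G) (a, true))) ?_ g
    intro x y
    rw [Subgroup.mem_comap]
    have e : MonoidHom.mulSingle (fun _ : κ × Bool => G) (a, true) ⁅x, y⁆ =
        ⁅(fun z : κ × Bool => (Pi.mulSingle a x : κ → G) z.1),
          (fun z : κ × Bool => if z.2 then y else 1)⁆ := by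
      funext z
      obtain ⟨b, c⟩ := z
      show (Pi.mulSingle (a, true) ⁅x, y⁆ : κ × Bool → G) (b, c) =
        ⁅(Pi.mulSingle a x : κ → G) b, (if c = true then y else 1)⁆
      by_cases hb : b = a
      · subst hb
        cases c
        · rw [Pi.mulSingle_eq_of_ne (by simp), Pi.mulSingle_eq_same]
          simp
        · rw [Pi.mulSingle_eq_same, Pi.mulSingle_eq_same]
          simp
      · rw [Pi.mulSingle_eq_of_ne (show ((b, c) : κ × Bool) ≠ (a, true) by simp [hb]),
          Pi.mulSingle_eq_of_ne (show b ≠ a from hb)]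
        simp
    rw [e]
    have i1 := h1 (Pi.mulSingle a x)
    have i2 := h2 y
    rw [commutatorElement_def]
    exact H.mul_mem (H.mul_mem (H.mul_mem i1 i2) (H.inv_mem i1)) (H.inv_mem i2)
  refine Subgroup.pi_mem_of_mulSingle_mem t fun i => ?_
  obtain ⟨a, c⟩ := i
  cases c
  · have i1 := h1 (Pi.mulSingle a (t (a, false)))
    have e := ms_fst (G := G) a (t (a, false))
    rw [e] at i1
    have := H.mul_mem (H.inv_mem (h3 a (t (a, false)))) i1
    rwa [inv_mul_cancel_left] at this
  · exact h3 a _

/-- the functions on a window which are given by words. -/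
def wordSub (G : Type) [Group G] (i j : ℕ) : Subgroup (K i × Bool → G) where
  carrier := {t | ∃ w : FreeGroup (Option ℕ × G), ∀ (E : Type) [Group E] (e : Option ℕ → G → E)
    (ψ : (K i × Bool → G) →* E), IsWin e i j ψ → ψ t = FreeGroup.lift (fun x => e x.1 x.2) w}
  mul_mem' := by
    rintro a b ⟨w, hw⟩ ⟨w', hw'⟩
    refine ⟨w * w', ?_⟩
    intro E _ e ψ hψ
    rw [map_mul, map_mul, hw E e ψ hψ, hw' E e ψ hψ]
  one_mem' := by
    refine ⟨1, ?_⟩
    intro E _ e ψ _
    rw [map_one, map_one]
  inv_mem' := by
    rintro a ⟨w, hw⟩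
    refine ⟨w⁻¹, ?_⟩
    intro E _ e ψ hψ
    rw [map_inv, map_inv, hw E e ψ hψ]

/-- a window restricted to the functions of the first coordinate is a window. -/
theorem IsWin.restrict {E : Type} [Group E] {e : Option ℕ → G → E} {i j : ℕ}
    {ψ : (K (i + 1) × Bool → G) →* E} (h : IsWin e (i + 1) j ψ) :
    ∃ ψ' : (K i × Bool → G) →* E, IsWin e i i ψ' ∧ ∀ f : K (i + 1) → G,
      ψ' f = ψ (fun x => f x.1) := by
  set ψ' : (K i × Bool → G) →* E :=
    MonoidHom.mk' (fun f => ψ (fun x => f x.1)) (by
      intro a b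
      exact map_mul ψ (fun x => a x.1) (fun x => b x.1)) with hψ'
  refine ⟨ψ', ⟨?_, ?_, ?_⟩, fun _ => rfl⟩
  · intro g
    exact h.const g
  · intro l hl g
    have h1 := h.low l (by omega) g
    rw [← h1]
    show ψ _ = ψ _
    congr 1
    funext x
    have e1 : dig (i + 1) l x.1 = dig i l x.1.1 := by
      have : dig (i + 1) l x.1 = if l = i then x.1.2 else dig i l x.1.1 := rfl
      rw [this, if_neg (by omega)]
    rw [e1]
  · intro g
    have h1 := h.low i (by omega) g
    rw [← h1]
    show ψ _ = ψ _
    congr 1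
    funext x
    have e1 : dig (i + 1) i x.1 = x.1.2 := by
      have : dig (i + 1) i x.1 = if i = i then x.1.2 else dig i i x.1.1 := rfl
      rw [this, if_pos rfl]
    rw [e1]

/-- words for functions of the first coordinate, independent of the last digit. -/
def LowWord (G : Type) [Group G] (i : ℕ) : Prop :=
  ∀ f : K i → G, ∃ w : FreeGroup (Option ℕ × G), ∀ (E : Type) [Group E] (e : Option ℕ → G → E)
    (j : ℕ) (ψ : (K i × Bool → G) →* E), IsWin e i j ψ →
      ψ (fun x => f x.1) = FreeGroup.lift (fun x => e x.1 x.2) w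

theorem wordSub_top (hG : commutator G = ⊤) (i j : ℕ) (h : LowWord G i) (t : K i × Bool → G) :
    t ∈ wordSub G i j := by
  refine gen_top hG _ ?_ ?_ t
  · intro f
    obtain ⟨w, hw⟩ := h f
    exact ⟨w, fun E _ e ψ hψ => hw E e j ψ hψ⟩
  · intro g
    refine ⟨FreeGroup.of (some j, g), ?_⟩
    intro E _ e ψ hψ
    rw [FreeGroup.lift_apply_of]
    exact hψ.top g

theorem lowWord (hG : commutator G = ⊤) (i : ℕ) : LowWord G i := by
  induction i with
  | zero =>
    intro f
    refine ⟨FreeGroup.of (none, f ()), ?_⟩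
    intro E _ e j ψ hψ
    rw [FreeGroup.lift_apply_of]
    exact hψ.const (f ())
  | succ i ih =>
    intro f
    obtain ⟨w, hw⟩ := wordSub_top hG i i ih f
    refine ⟨w, ?_⟩
    intro E _ e j ψ hψ
    obtain ⟨ψ', h1, h2⟩ := hψ.restrict
    rw [← h2 f]
    exact hw E e ψ' h1

theorem exists_word (hG : commutator G = ⊤) (i j : ℕ) (t : K i × Bool → G) :
    ∃ w : FreeGroup (Option ℕ × G), ∀ (E : Type) [Group E] (e : Option ℕ → G → E)
      (ψ : (K i × Bool → G) →* E), IsWin e i j ψ →
        ψ t = FreeGroup.lift (fun x => e x.1 x.2) w :=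
  wordSub_top hG i j (lowWord hG i) t

open Classical in
/-- the word of an element of a window. -/
noncomputable def wd (i j : ℕ) (t : K i × Bool → G) : FreeGroup (Option ℕ × G) :=
  if h : ∃ w : FreeGroup (Option ℕ × G), ∀ (E : Type) [Group E] (e : Option ℕ → G → E)
      (ψ : (K i × Bool → G) →* E), IsWin e i j ψ →
        ψ t = FreeGroup.lift (fun x => e x.1 x.2) w then h.choose else 1

theorem wd_spec (hG : commutator G = ⊤) (i j : ℕ) (t : K i × Bool → G) {E : Type} [Group E]
    {e : Option ℕ → G → E} {ψ : (K i × Bool → G) →* E} (h : IsWin e i j ψ) :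
    FreeGroup.lift (fun x => e x.1 x.2) (wd i j t) = ψ t := by
  unfold wd
  rw [dif_pos (exists_word hG i j t)]
  exact ((exists_word hG i j t).choose_spec E e ψ h).symm

theorem win_agree (hG : commutator G = ⊤) {i j j' : ℕ} {E : Type} [Group E]
    {e : Option ℕ → G → E} {ψ φ : (K i × Bool → G) →* E} (h : IsWin e i j ψ)
    (h' : IsWin e i j' φ) (f : K i → G) : ψ (fun x => f x.1) = φ (fun x => f x.1) := by
  obtain ⟨w, hw⟩ := lowWord hG i f
  rw [hw E e j ψ h, hw E e j' φ h']

end

end Pool.Agent.H72.DEF
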